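import Mathlib

set_option autoImplicit false

/-!
Injective computable enumeration of the graph of a partial recursive function, by stages.
-/

namespace Pool.Agent.Lib_helper46

open Encodable Denumerable
open Nat.Partrec (Code)

/-- The graph of a partial recursive function can be enumerated computably and without
repetitions. -/
theorem exists_enum {α β : Type*} [Primcodable α] [Primcodable β] {f : α →. β}
    (hf : Partrec f) :
    ∃ e : ℕ → Option (α × β), Primrec e ∧
      (∀ s a b, e s = some (a, b) → b ∈ f a) ∧
      (∀ a b, b ∈ f a → ∃ s, e s = some (a, b)) ∧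
      (∀ s t a b b', e s = some (a, b) → e t = some (a, b') → s = t) := by
  obtain ⟨c, hc⟩ := Code.exists_code.1 hf
  have hcf : ∀ a : α, Code.eval c (encode a) = (f a).map encode := by
    intro a
    have := congrFun hc (encode a)
    simpa using this
  let e : ℕ → Option (α × β) := fun s =>
    (decode₂ α s.unpair.2).bind fun a =>
      if (Code.evaln s.unpair.1 c (encode a)).isSome then none
      else ((Code.evaln (s.unpair.1 + 1) c (encode a)).bind (fun y => decode (α := β) y)).map
        (fun b => (a, b))
  have he : ∀ s a b, e s = some (a, b) ↔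
      (encode a = s.unpair.2 ∧ Code.evaln s.unpair.1 c (encode a) = none ∧
        ∃ y, Code.evaln (s.unpair.1 + 1) c (encode a) = some y ∧ decode (α := β) y = some b) := by
    intro s a b
    simp only [e, Option.bind_eq_some_iff]
    constructor
    · rintro ⟨a', ha', h⟩
      have ha'' : encode a' = s.unpair.2 := by
        have : a' ∈ decode₂ α s.unpair.2 := ha'
        exact Encodable.mem_decode₂.1 this
      split_ifs at h with h1
      simp only [Option.map_eq_some_iff, Option.bind_eq_some_iff, Prod.mk.injEq] at h
      obtain ⟨b', ⟨y, hy, hb'⟩, rfl, rfl⟩ := h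
      refine ⟨ha'', by simpa using h1, y, hy, hb'⟩
    · rintro ⟨h1, h2, y, hy, hb⟩
      refine ⟨a, Encodable.mem_decode₂.2 h1, ?_⟩
      simp [h2, hy, hb]
  refine ⟨e, ?_, ?_, ?_, ?_⟩
  · -- primitive recursive
    have hk : Primrec (fun s : ℕ => s.unpair.1) := Primrec.fst.comp Primrec.unpair
    have hi : Primrec (fun s : ℕ => s.unpair.2) := Primrec.snd.comp Primrec.unpair
    refine Primrec.option_bind (Primrec.decode₂.comp hi) ?_
    have hev : Primrec (fun x : ℕ × α => Code.evaln x.1.unpair.1 c (encode x.2)) :=
      Code.primrec_evaln.comp (Primrec.pair (Primrec.pair (hk.comp Primrec.fst) (Primrec.const c))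
        (Primrec.encode.comp Primrec.snd))
    have hev' : Primrec (fun x : ℕ × α => Code.evaln (x.1.unpair.1 + 1) c (encode x.2)) :=
      Code.primrec_evaln.comp (Primrec.pair (Primrec.pair
        (Primrec.succ.comp (hk.comp Primrec.fst)) (Primrec.const c))
        (Primrec.encode.comp Primrec.snd))
    refine Primrec.ite (c := fun x : ℕ × α => (Code.evaln x.1.unpair.1 c (encode x.2)).isSome = true)
      ?_ (Primrec.const _) ?_
    · exact Primrec.eq.comp (Primrec.option_isSome.comp hev) (Primrec.const true)
    · refine Primrec.option_map ?_ ?_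
      · exact Primrec.option_bind hev' (Primrec.decode.comp Primrec.snd).to₂
      · exact (Primrec.pair (Primrec.snd.comp Primrec.fst) Primrec.snd).to₂
  · intro s a b h
    obtain ⟨h1, h2, y, hy, hb⟩ := (he s a b).1 h
    have h3 : y ∈ Code.eval c (encode a) := Code.evaln_sound hy
    rw [hcf a] at h3
    simp only [Part.mem_map_iff] at h3
    obtain ⟨b', hb', rfl⟩ := h3
    rw [Encodable.encodek] at hb
    cases hb
    exact hb'
  · intro a b hb
    have h1 : encode b ∈ Code.eval c (encode a) := by
      rw [hcf a]; exact Part.mem_map _ hb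
    obtain ⟨k, hk⟩ := Code.evaln_complete.1 h1
    classical
    have hex : ∃ k, (Code.evaln k c (encode a)).isSome := ⟨k, by
      rw [Option.mem_def] at hk; simp [hk]⟩
    let k0 := Nat.find hex
    have hk0 : (Code.evaln k0 c (encode a)).isSome := Nat.find_spec hex
    have hpos : k0 ≠ 0 := by
      intro h0
      rw [h0] at hk0
      simp [Code.evaln] at hk0
    obtain ⟨k1, hk1⟩ := Nat.exists_eq_succ_of_ne_zero hpos
    have hnone : Code.evaln k1 c (encode a) = none := by
      have := Nat.find_min hex (m := k1) (by
        change k1 < k0; omega)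
      simpa using this
    obtain ⟨y, hy⟩ := Option.isSome_iff_exists.1 hk0
    have hy' : y ∈ Code.eval c (encode a) := Code.evaln_sound hy
    have hyb : y = encode b := Part.mem_unique hy' h1
    refine ⟨Nat.pair k1 (encode a), (he _ _ _).2 ?_⟩
    simp only [Nat.unpair_pair]
    refine ⟨trivial, hnone, y, ?_, ?_⟩
    · rw [← hy, hk1]
    · rw [hyb, Encodable.encodek]
  · intro s t a b b' hs ht
    obtain ⟨h1, h2, y, hy, hb⟩ := (he s a b).1 hs
    obtain ⟨h1', h2', y', hy', hb'⟩ := (he t a b').1 ht
    have hk : s.unpair.1 = t.unpair.1 := by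
      rcases lt_trichotomy s.unpair.1 t.unpair.1 with h | h | h
      · exfalso
        have := Code.evaln_mono (k₁ := s.unpair.1 + 1) (k₂ := t.unpair.1) (by omega) hy
        rw [h2'] at this
        exact absurd this (by simp)
      · exact h
      · exfalso
        have := Code.evaln_mono (k₁ := t.unpair.1 + 1) (k₂ := s.unpair.1) (by omega) hy'
        rw [h2] at this
        exact absurd this (by simp)
    have h2 : s.unpair = t.unpair := Prod.ext hk (h1.symm.trans h1')
    calc s = Nat.pair s.unpair.1 s.unpair.2 := (Nat.pair_unpair s).symm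
      _ = Nat.pair t.unpair.1 t.unpair.2 := by rw [h2]
      _ = t := Nat.pair_unpair t

end Pool.Agent.Lib_helper46
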