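import Mathlib

set_option autoImplicit false

/-!
A computable Kraft-Chaitin theorem (with the loss of one bit), via left-to-right allocation
of dyadic cells.
-/

namespace Pool.Agent.Lib_helper46

/-- `M` has a prefix-free domain. -/
def PrefixFree (M : List Bool →. List Bool) : Prop :=
  ∀ p q : List Bool, (M p).Dom → (M q).Dom → p <+: q → p = q

/-- Value of a bit string, most significant bit first. -/
def val (σ : List Bool) : ℕ := σ.foldl (fun a b => 2 * a + b.toNat) 0

theorem foldl_val (σ : List Bool) : ∀ a : ℕ,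
    σ.foldl (fun a b => 2 * a + b.toNat) a = a * 2 ^ σ.length + val σ := by
  induction σ with
  | nil => intro a; simp [val]
  | cons b σ ih =>
    intro a
    simp only [List.foldl_cons, val, List.length_cons]
    rw [ih, ih]
    ring

theorem val_append (σ ρ : List Bool) : val (σ ++ ρ) = val σ * 2 ^ ρ.length + val ρ := by
  unfold val
  rw [List.foldl_append, foldl_val]
  rfl

theorem val_lt (σ : List Bool) : val σ < 2 ^ σ.length := by
  induction σ with
  | nil => simp [val]
  | cons b σ ih =>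
    have : val (b :: σ) = val ([b] ++ σ) := rfl
    rw [this, val_append]
    have hb : val [b] ≤ 1 := by cases b <;> simp [val]
    simp only [List.length_cons]
    calc val [b] * 2 ^ σ.length + val σ < val [b] * 2 ^ σ.length + 2 ^ σ.length := by omega
      _ ≤ 1 * 2 ^ σ.length + 2 ^ σ.length := by gcongr
      _ = 2 ^ (σ.length + 1) := by ring

theorem exists_val (L q : ℕ) (hq : q < 2 ^ L) : ∃ σ : List Bool, σ.length = L ∧ val σ = q := by
  induction L generalizing q with
  | zero => exact ⟨[], rfl, by simp at hq; simp [val, hq]⟩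
  | succ L ih =>
    obtain ⟨σ, h1, h2⟩ := ih (q / 2) (by
      rw [pow_succ] at hq; omega)
    refine ⟨σ ++ [decide (q % 2 = 1)], by simp [h1], ?_⟩
    rw [val_append, h2]
    simp only [List.length_cons, List.length_nil, val, List.foldl_cons, List.foldl_nil]
    rcases Nat.mod_two_eq_zero_or_one q with h | h <;> simp [h] <;> omega

theorem two_pow_primrec : Primrec (fun n : ℕ => 2 ^ n) := by
  refine (Primrec.nat_rec₁ (f := fun _ IH => 2 * IH) 1
    (Primrec.nat_mul.comp (Primrec.const 2) Primrec.snd)).of_eq fun n => ?_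
  induction n with
  | zero => rfl
  | succ n ih => simp only [ih]; ring

theorem val_primrec : Primrec val := by
  unfold val
  refine Primrec.list_foldl (f := fun σ : List Bool => σ) (g := fun _ => 0)
    (h := fun _ (x : ℕ × Bool) => 2 * x.1 + x.2.toNat) Primrec.id (Primrec.const 0) ?_
  refine Primrec.nat_add.comp ?_ ?_
  · exact Primrec.nat_mul.comp (Primrec.const 2) (Primrec.fst.comp Primrec.snd)
  · exact (Primrec.dom_finite Bool.toNat).comp (Primrec.snd.comp Primrec.snd)

/-- Weight of a request. -/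
noncomputable def wt : Option (List Bool × ℕ) → ℝ
  | none => 0
  | some r => (1 / 2 : ℝ) ^ r.2

/-- Index of the first dyadic cell of size `2^{-(ℓ+1)}` to the right of position `a / 2^b`. -/
def cellIdx (st : ℕ × ℕ) (ℓ : ℕ) : ℕ := (st.1 * 2 ^ (ℓ + 1) + 2 ^ st.2 - 1) / 2 ^ st.2

/-- The position (as numerator, exponent) after serving the first `i` requests. -/
def pos (req : ℕ → Option (List Bool × ℕ)) (i : ℕ) : ℕ × ℕ :=
  Nat.rec (0, 0) (fun i st => Option.casesOn (req i) st
    (fun r => (cellIdx st r.2 + 1, r.2 + 1))) i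

/-- The position as a real number. -/
noncomputable def posR (req : ℕ → Option (List Bool × ℕ)) (i : ℕ) : ℝ :=
  ((pos req i).1 : ℝ) / 2 ^ (pos req i).2

variable {req : ℕ → Option (List Bool × ℕ)}

theorem pos_succ_none {i : ℕ} (h : req i = none) : pos req (i + 1) = pos req i := by
  simp [pos, h]

theorem pos_succ_some {i : ℕ} {y : List Bool} {ℓ : ℕ} (h : req i = some (y, ℓ)) :
    pos req (i + 1) = (cellIdx (pos req i) ℓ + 1, ℓ + 1) := by
  simp [pos, h]

theorem cellIdx_ge (st : ℕ × ℕ) (ℓ : ℕ) :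
    (st.1 : ℝ) / 2 ^ st.2 ≤ (cellIdx st ℓ : ℝ) / 2 ^ (ℓ + 1) := by
  rw [div_le_div_iff₀ (by positivity) (by positivity)]
  have h : st.1 * 2 ^ (ℓ + 1) ≤ cellIdx st ℓ * 2 ^ st.2 := by
    unfold cellIdx
    set A := st.1 * 2 ^ (ℓ + 1)
    set B := 2 ^ st.2 with hB
    have hBpos : 0 < B := by positivity
    have h1 : A + B - 1 < (A + B - 1) / B * B + B := by
      have := Nat.lt_div_mul_add (a := A + B - 1) hBpos
      omega
    omega
  exact_mod_cast h

theorem cellIdx_le (st : ℕ × ℕ) (ℓ : ℕ) :
    ((cellIdx st ℓ : ℝ) + 1) / 2 ^ (ℓ + 1) ≤ (st.1 : ℝ) / 2 ^ st.2 + (1 / 2 : ℝ) ^ ℓ := by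
  have h : cellIdx st ℓ * 2 ^ st.2 + 1 ≤ st.1 * 2 ^ (ℓ + 1) + 2 ^ st.2 := by
    unfold cellIdx
    set A := st.1 * 2 ^ (ℓ + 1)
    set B := 2 ^ st.2 with hB
    have hBpos : 0 < B := by positivity
    have h1 : (A + B - 1) / B * B ≤ A + B - 1 := Nat.div_mul_le_self _ _
    omega
  have h' : (cellIdx st ℓ : ℝ) * 2 ^ st.2 + 1 ≤ st.1 * 2 ^ (ℓ + 1) + 2 ^ st.2 := by
    exact_mod_cast h
  have h2 : (0 : ℝ) < 2 ^ st.2 := by positivity
  have h3 : (0 : ℝ) < 2 ^ ℓ := by positivity
  rw [div_add' _ _ _ (ne_of_gt h2), div_le_div_iff₀ (by positivity) h2]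
  have h4 : ((st.1 : ℝ) + (1 / 2) ^ ℓ * 2 ^ st.2) * 2 ^ (ℓ + 1)
      = st.1 * 2 ^ (ℓ + 1) + 2 * 2 ^ st.2 := by
    have : ((1 : ℝ) / 2) ^ ℓ * 2 ^ ℓ = 1 := by
      rw [← mul_pow]; norm_num
    rw [pow_succ]
    linear_combination (2 * 2 ^ st.2 : ℝ) * this
  rw [h4]
  nlinarith [h']

theorem posR_mono_succ (i : ℕ) : posR req i ≤ posR req (i + 1) := by
  unfold posR
  rcases h : req i with _ | ⟨y, ℓ⟩
  · rw [pos_succ_none h]
  · rw [pos_succ_some h]
    refine (cellIdx_ge (pos req i) ℓ).trans ?_
    simp only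
    gcongr
    linarith

theorem posR_mono : Monotone (posR req) := monotone_nat_of_le_succ posR_mono_succ

theorem posR_le (N : ℕ) : posR req N ≤ ∑ i ∈ Finset.range N, wt (req i) := by
  induction N with
  | zero => simp [posR, pos]
  | succ N ih =>
    rw [Finset.sum_range_succ]
    rcases h : req N with _ | ⟨y, ℓ⟩
    · have h1 : posR req (N + 1) = posR req N := by unfold posR; rw [pos_succ_none h]
      have h2 : wt none = 0 := rfl
      rw [h1, h2]; linarith
    · have h1 : posR req (N + 1) ≤ posR req N + (1 / 2 : ℝ) ^ ℓ := by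
        unfold posR
        rw [pos_succ_some h]
        have := cellIdx_le (pos req N) ℓ
        simpa using this
      have h2 : wt (some (y, ℓ)) = (1 / 2 : ℝ) ^ ℓ := rfl
      rw [h2]
      linarith

/-- The test whether the request `x.2` served at position `x.1.2` has code `x.1.1`. -/
def testFn (x : (List Bool × (ℕ × ℕ)) × (List Bool × ℕ)) : Option (List Bool) :=
  if x.2.2 + 1 = x.1.1.length ∧ cellIdx x.1.2 x.2.2 = val x.1.1 then some x.2.1 else none

/-- Does the `i`-th request have code `σ`? If so return its target. -/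
def served (req : ℕ → Option (List Bool × ℕ)) (σ : List Bool) (i : ℕ) : Option (List Bool) :=
  (req i).bind fun r => testFn ((σ, pos req i), r)

theorem served_eq_some {σ : List Bool} {i : ℕ} {y : List Bool} :
    served req σ i = some y ↔ ∃ ℓ, req i = some (y, ℓ) ∧ ℓ + 1 = σ.length ∧
      cellIdx (pos req i) ℓ = val σ := by
  unfold served testFn
  simp only [Option.bind_eq_some_iff, Prod.exists]
  constructor
  · rintro ⟨y', ℓ, h1, h2⟩
    split_ifs at h2 with h3
    simp only [Option.some.injEq] at h2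
    subst h2
    exact ⟨ℓ, h1, h3.1, h3.2⟩
  · rintro ⟨ℓ, h1, h2, h3⟩
    exact ⟨y, ℓ, h1, by simp [h2, h3]⟩

theorem served_lower {σ : List Bool} {i : ℕ} {y : List Bool} (h : served req σ i = some y) :
    posR req i ≤ (val σ : ℝ) / 2 ^ σ.length := by
  obtain ⟨ℓ, h1, h2, h3⟩ := served_eq_some.1 h
  have := cellIdx_ge (pos req i) ℓ
  rw [h3, h2] at this
  exact this

theorem served_upper {σ : List Bool} {i : ℕ} {y : List Bool} (h : served req σ i = some y) :
    posR req (i + 1) = ((val σ : ℝ) + 1) / 2 ^ σ.length := by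
  obtain ⟨ℓ, h1, h2, h3⟩ := served_eq_some.1 h
  unfold posR
  rw [pos_succ_some h1, h3, ← h2]
  push_cast
  rfl

theorem served_unique {σ τ : List Bool} {i j : ℕ} {y z : List Bool}
    (h1 : served req σ i = some y) (h2 : served req τ j = some z) (hp : σ <+: τ) : i = j := by
  obtain ⟨ρ, rfl⟩ := hp
  have hσ : (0 : ℝ) < 2 ^ σ.length := by positivity
  have hρ : (0 : ℝ) < 2 ^ ρ.length := by positivity
  have hlen : (σ ++ ρ).length = σ.length + ρ.length := List.length_append
  have hval : (val (σ ++ ρ) : ℝ) = val σ * 2 ^ ρ.length + val ρ := by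
    rw [val_append]; push_cast; ring
  rcases lt_trichotomy i j with h | h | h
  · exfalso
    have a1 := served_upper h1
    have a2 := served_lower h2
    have a3 : posR req (i + 1) ≤ posR req j := posR_mono h
    have a4 : (val (σ ++ ρ) : ℝ) / 2 ^ (σ ++ ρ).length < ((val σ : ℝ) + 1) / 2 ^ σ.length := by
      rw [hval, hlen, pow_add, div_lt_div_iff₀ (by positivity) hσ]
      have : (val ρ : ℝ) < 2 ^ ρ.length := by exact_mod_cast val_lt ρ
      nlinarith
    linarith
  · exact h
  · exfalso
    have a1 := served_upper h2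
    have a2 := served_lower h1
    have a3 : posR req (j + 1) ≤ posR req i := posR_mono h
    have a4 : (val σ : ℝ) / 2 ^ σ.length < ((val (σ ++ ρ) : ℝ) + 1) / 2 ^ (σ ++ ρ).length := by
      rw [hval, hlen, pow_add, div_lt_div_iff₀ hσ (by positivity)]
      have : (0 : ℝ) ≤ val ρ := by positivity
      nlinarith
    linarith

theorem cellIdx_primrec : Primrec₂ cellIdx := by
  unfold cellIdx
  have h1 : Primrec (fun x : (ℕ × ℕ) × ℕ => 2 ^ x.1.2) :=
    two_pow_primrec.comp (Primrec.snd.comp Primrec.fst)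
  refine Primrec.nat_div.comp (Primrec.nat_sub.comp (Primrec.nat_add.comp ?_ h1)
    (Primrec.const 1)) h1
  exact Primrec.nat_mul.comp (Primrec.fst.comp Primrec.fst)
    (two_pow_primrec.comp (Primrec.succ.comp Primrec.snd))

theorem pos_computable (hreq : Computable req) : Computable (pos req) := by
  unfold pos
  refine Computable.nat_rec (f := fun i : ℕ => i) (g := fun _ => ((0, 0) : ℕ × ℕ))
    (h := fun _ (x : ℕ × (ℕ × ℕ)) => Option.casesOn (req x.1) x.2
      (fun r => (cellIdx x.2 r.2 + 1, r.2 + 1))) Computable.id (Computable.const (0, 0)) ?_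
  refine Computable.option_casesOn (o := fun x : ℕ × (ℕ × (ℕ × ℕ)) => req x.2.1)
    (f := fun x => x.2.2) (g := fun x r => (cellIdx x.2.2 r.2 + 1, r.2 + 1)) ?_ ?_ ?_
  · exact hreq.comp (Computable.fst.comp Computable.snd)
  · exact Computable.snd.comp Computable.snd
  · have hst : Primrec (fun x : (ℕ × ℕ × (ℕ × ℕ)) × (List Bool × ℕ) => x.1.2.2) :=
      Primrec.snd.comp (Primrec.snd.comp Primrec.fst)
    have hl : Primrec (fun x : (ℕ × ℕ × (ℕ × ℕ)) × (List Bool × ℕ) => x.2.2) :=
      Primrec.snd.comp Primrec.snd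
    refine (Primrec.pair ?_ ?_).to_comp
    · exact Primrec.succ.comp (cellIdx_primrec.comp hst hl)
    · exact Primrec.succ.comp hl

theorem testFn_primrec : Primrec testFn := by
  unfold testFn
  refine Primrec.ite (PrimrecPred.and ?_ ?_) ?_ (Primrec.const none)
  · exact Primrec.eq.comp (Primrec.succ.comp (Primrec.snd.comp Primrec.snd))
      (Primrec.list_length.comp (Primrec.fst.comp Primrec.fst))
  · exact Primrec.eq.comp (cellIdx_primrec.comp (Primrec.snd.comp Primrec.fst)
      (Primrec.snd.comp Primrec.snd)) (val_primrec.comp (Primrec.fst.comp Primrec.fst))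
  · exact Primrec.option_some.comp (Primrec.fst.comp Primrec.snd)

theorem served_computable (hreq : Computable req) : Computable₂ (served req) := by
  have hpos := pos_computable hreq
  have h1 : Computable (fun x : (List Bool × ℕ) × (List Bool × ℕ) =>
      ((x.1.1, pos req x.1.2), x.2)) :=
    Computable.pair (Computable.pair (Computable.fst.comp Computable.fst)
      (hpos.comp (Computable.snd.comp Computable.fst))) Computable.snd
  have h2 : Computable₂ (fun (x : List Bool × ℕ) (r : List Bool × ℕ) =>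
      testFn ((x.1, pos req x.2), r)) := (testFn_primrec.to_comp.comp h1).to₂
  have h3 : Computable (fun x : List Bool × ℕ => req x.2) := hreq.comp Computable.snd
  exact (Computable.option_bind h3 h2).to₂

/-- **Kraft-Chaitin theorem**, with the loss of one bit. -/
theorem kraft_chaitin {req : ℕ → Option (List Bool × ℕ)} (hreq : Computable req)
    (hsum : ∀ N, ∑ i ∈ Finset.range N, wt (req i) ≤ 1) :
    ∃ M : List Bool →. List Bool, Partrec M ∧ PrefixFree M ∧
      ∀ i y ℓ, req i = some (y, ℓ) → ∃ σ : List Bool, σ.length = ℓ + 1 ∧ y ∈ M σ := by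
  refine ⟨fun σ => Nat.rfindOpt (served req σ), Partrec.rfindOpt (served_computable hreq), ?_, ?_⟩
  · intro σ τ hσ hτ hp
    obtain ⟨i, y, hy⟩ := Nat.rfindOpt_dom.1 hσ
    obtain ⟨j, z, hz⟩ := Nat.rfindOpt_dom.1 hτ
    have hij := served_unique hy hz hp
    subst hij
    obtain ⟨ℓ, h1, h2, h3⟩ := served_eq_some.1 hy
    obtain ⟨ℓ', h1', h2', h3'⟩ := served_eq_some.1 hz
    rw [h1] at h1'
    simp only [Option.some.injEq, Prod.mk.injEq] at h1'
    exact hp.eq_of_length (by rw [← h2, ← h2', h1'.2])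
  · intro i y ℓ hi
    have hq : cellIdx (pos req i) ℓ < 2 ^ (ℓ + 1) := by
      have h1 : posR req (i + 1) ≤ 1 := (posR_le (i + 1)).trans (hsum _)
      unfold posR at h1
      rw [pos_succ_some hi] at h1
      simp only at h1
      rw [div_le_one (by positivity)] at h1
      have : cellIdx (pos req i) ℓ + 1 ≤ 2 ^ (ℓ + 1) := by exact_mod_cast h1
      omega
    obtain ⟨σ, hσ1, hσ2⟩ := exists_val (ℓ + 1) _ hq
    refine ⟨σ, hσ1, ?_⟩
    have hs : served req σ i = some y := served_eq_some.2 ⟨ℓ, hi, hσ1.symm, hσ2.symm⟩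
    have hdom : (Nat.rfindOpt (served req σ)).Dom := Nat.rfindOpt_dom.2 ⟨i, y, hs⟩
    obtain ⟨j, hj⟩ := Nat.rfindOpt_spec (Part.get_mem hdom)
    have hij : j = i := served_unique hj hs (List.prefix_refl σ)
    subst hij
    rw [Option.mem_def, hs] at hj
    simp only [Option.some.injEq] at hj
    rw [hj]
    exact Part.get_mem hdom

end Pool.Agent.Lib_helper46
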