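import Mathlib
import Pool.Agent.Lib_helper46.Enum
import Pool.Agent.Lib_helper46.Kraft

set_option autoImplicit false

/-!
Kraft inequality and the coding theorem for lengths.
-/

namespace Pool.Agent.Lib_helper46

theorem val_cons (b : Bool) (σ : List Bool) : val (b :: σ) = b.toNat * 2 ^ σ.length + val σ := by
  have : val (b :: σ) = val ([b] ++ σ) := rfl
  rw [this, val_append]
  simp [val]

theorem val_inj : ∀ {σ τ : List Bool}, σ.length = τ.length → val σ = val τ → σ = τ
  | [], [], _, _ => rfl
  | [], _ :: _, h, _ => by simp at h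
  | _ :: _, [], h, _ => by simp at h
  | a :: σ, b :: τ, h, hv => by
    have hl : σ.length = τ.length := by simpa using h
    rw [val_cons, val_cons, hl] at hv
    have h1 := val_lt σ
    have h2 := val_lt τ
    rw [hl] at h1
    have hab : a = b := by
      cases a <;> cases b <;> simp at hv ⊢ <;> omega
    subst hab
    have : val σ = val τ := by omega
    rw [val_inj hl this]

/-- Kraft inequality for finite prefix-free sets of binary strings. -/
theorem kraft_le (S : Finset (List Bool)) (hS : ∀ σ ∈ S, ∀ τ ∈ S, σ <+: τ → σ = τ) :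
    ∑ σ ∈ S, (1 / 2 : ℝ) ^ σ.length ≤ 1 := by
  classical
  set L := S.sup List.length with hL
  have hle : ∀ σ ∈ S, σ.length ≤ L := fun σ hσ => Finset.le_sup (f := List.length) hσ
  let I : List Bool → Finset ℕ := fun σ =>
    Finset.Ico (val σ * 2 ^ (L - σ.length)) ((val σ + 1) * 2 ^ (L - σ.length))
  have hcard : ∀ σ, (I σ).card = 2 ^ (L - σ.length) := by
    intro σ
    simp only [I, Nat.card_Ico]
    rw [add_mul, one_mul, Nat.add_sub_cancel_left]
  have key : ∀ σ ∈ S, ∀ τ ∈ S, σ.length ≤ τ.length → ∀ a, a ∈ I σ → a ∈ I τ → σ = τ := by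
    intro σ hσ τ hτ hlen a ha hb
    refine hS σ hσ τ hτ ?_
    have hτL := hle τ hτ
    simp only [I, Finset.mem_Ico] at ha hb
    have e1 : L - σ.length = (L - τ.length) + (τ.length - σ.length) := by omega
    set D := L - τ.length
    set E := τ.length - σ.length with hE
    have hsplit : τ = τ.take σ.length ++ τ.drop σ.length := (List.take_append_drop _ _).symm
    have hdl : (τ.drop σ.length).length = E := by simp [hE]
    have htl : (τ.take σ.length).length = σ.length := by simp [hlen]
    have hv : val τ = val (τ.take σ.length) * 2 ^ E + val (τ.drop σ.length) := by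
      conv_lhs => rw [hsplit]
      rw [val_append, hdl]
    have hvl : val (τ.drop σ.length) < 2 ^ E := by
      have := val_lt (τ.drop σ.length); rwa [hdl] at this
    have hD : 0 < 2 ^ D := by positivity
    have hEp : 0 < 2 ^ E := by positivity
    rw [e1, pow_add] at ha
    -- compare
    have h1 : val σ * 2 ^ E < val τ + 1 := by
      have : val σ * 2 ^ E * 2 ^ D < (val τ + 1) * 2 ^ D := by
        calc val σ * 2 ^ E * 2 ^ D = val σ * (2 ^ D * 2 ^ E) := by ring
          _ ≤ a := ha.1
          _ < _ := hb.2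
      exact Nat.lt_of_mul_lt_mul_right this
    have h2 : val τ < (val σ + 1) * 2 ^ E := by
      have : val τ * 2 ^ D < (val σ + 1) * 2 ^ E * 2 ^ D := by
        calc val τ * 2 ^ D ≤ a := hb.1
          _ < (val σ + 1) * (2 ^ D * 2 ^ E) := ha.2
          _ = _ := by ring
      exact Nat.lt_of_mul_lt_mul_right this
    have h3 : val (τ.take σ.length) = val σ := by
      rw [hv] at h1 h2
      have h4 : val σ < val (τ.take σ.length) + 1 := by
        by_contra hcon
        push Not at hcon
        have : (val (τ.take σ.length) + 1) * 2 ^ E ≤ val σ * 2 ^ E := by gcongr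
        rw [add_mul, one_mul] at this
        omega
      have h5 : val (τ.take σ.length) < val σ + 1 := by
        by_contra hcon
        push Not at hcon
        have : (val σ + 1) * 2 ^ E ≤ val (τ.take σ.length) * 2 ^ E := by gcongr
        omega
      omega
    have h4 : τ.take σ.length = σ := val_inj htl h3
    rw [← h4]
    exact List.take_prefix _ _
  have hdisj : ∀ σ ∈ S, ∀ τ ∈ S, σ ≠ τ → Disjoint (I σ) (I τ) := by
    intro σ hσ τ hτ hne
    rw [Finset.disjoint_left]
    intro a ha hb
    rcases le_total σ.length τ.length with h | h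
    · exact hne (key σ hσ τ hτ h a ha hb)
    · exact hne (key τ hτ σ hσ h a hb ha).symm
  have hsub : S.biUnion I ⊆ Finset.range (2 ^ L) := by
    intro a ha
    simp only [Finset.mem_biUnion] at ha
    obtain ⟨σ, hσ, ha⟩ := ha
    simp only [I, Finset.mem_Ico] at ha
    rw [Finset.mem_range]
    refine lt_of_lt_of_le ha.2 ?_
    have h1 := val_lt σ
    calc (val σ + 1) * 2 ^ (L - σ.length) ≤ 2 ^ σ.length * 2 ^ (L - σ.length) := by gcongr; omega
      _ = 2 ^ L := by rw [← pow_add]; congr 1; have := hle σ hσ; omega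
  have hc : ∑ σ ∈ S, 2 ^ (L - σ.length) ≤ 2 ^ L := by
    have h1 : (S.biUnion I).card = ∑ σ ∈ S, (I σ).card := Finset.card_biUnion hdisj
    have h2 := Finset.card_le_card hsub
    rw [h1, Finset.card_range] at h2
    simpa [hcard] using h2
  have hc' : (∑ σ ∈ S, (2 : ℝ) ^ (L - σ.length)) ≤ 2 ^ L := by exact_mod_cast hc
  have hmul : (∑ σ ∈ S, (1 / 2 : ℝ) ^ σ.length) * 2 ^ L = ∑ σ ∈ S, (2 : ℝ) ^ (L - σ.length) := by
    rw [Finset.sum_mul]
    refine Finset.sum_congr rfl fun σ hσ => ?_
    have h1 := hle σ hσ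
    have h2 : (2 : ℝ) ^ L = 2 ^ σ.length * 2 ^ (L - σ.length) := by
      rw [← pow_add]; congr 1; omega
    rw [h2, ← mul_assoc, ← mul_pow]
    norm_num
  have hpos : (0 : ℝ) < 2 ^ L := by positivity
  rw [← hmul] at hc'
  exact le_of_mul_le_mul_right (by linarith) hpos

/-- Mass contributed at stage `t` to outputs of length `n`. -/
noncomputable def mass (e : ℕ → Option (List Bool × List Bool)) (n t : ℕ) : ℝ :=
  Option.casesOn (e t) 0 fun r => if r.2.length = n then (1 / 2 : ℝ) ^ r.1.length else 0

theorem mass_nonneg (e : ℕ → Option (List Bool × List Bool)) (n t : ℕ) : 0 ≤ mass e n t := by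
  unfold mass
  rcases e t with _ | r
  · exact le_rfl
  · simp only
    split_ifs
    · positivity
    · exact le_rfl

/-- Exact dyadic representation of the accumulated mass. -/
def wst (e : ℕ → Option (List Bool × List Bool)) (n s : ℕ) : ℕ × ℕ :=
  Nat.rec (0, 0) (fun t st => Option.casesOn (e t) st fun r =>
    if r.2.length = n then (st.1 * 2 ^ r.1.length + 2 ^ st.2, st.2 + r.1.length) else st) s

theorem wst_real (e : ℕ → Option (List Bool × List Bool)) (n s : ℕ) :
    ((wst e n s).1 : ℝ) / 2 ^ (wst e n s).2 = ∑ t ∈ Finset.range s, mass e n t := by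
  induction s with
  | zero => simp [wst]
  | succ s ih =>
    rw [Finset.sum_range_succ, ← ih]
    have hs : wst e n (s + 1) = Option.casesOn (e s) (wst e n s) fun r =>
      if r.2.length = n then ((wst e n s).1 * 2 ^ r.1.length + 2 ^ (wst e n s).2,
        (wst e n s).2 + r.1.length) else wst e n s := rfl
    rw [hs]
    unfold mass
    rcases e s with _ | r
    · simp
    · simp only
      split_ifs with h
      · simp only [Nat.cast_add, Nat.cast_mul, Nat.cast_pow, Nat.cast_ofNat]
        rw [pow_add]
        have h1 : (0 : ℝ) < 2 ^ (wst e n s).2 := by positivity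
        have h2 : (0 : ℝ) < 2 ^ r.1.length := by positivity
        rw [one_div, inv_pow]
        field_simp
      · simp

/-- `st` represents a number `≥ 2^{-k}`. -/
def big (st : ℕ × ℕ) (k : ℕ) : Prop := 2 ^ st.2 ≤ st.1 * 2 ^ k

instance (st : ℕ × ℕ) (k : ℕ) : Decidable (big st k) := by unfold big; infer_instance

theorem big_iff (st : ℕ × ℕ) (k : ℕ) : big st k ↔ (1 / 2 : ℝ) ^ k ≤ (st.1 : ℝ) / 2 ^ st.2 := by
  unfold big
  rw [one_div, inv_pow, le_div_iff₀ (by positivity), inv_mul_le_iff₀ (by positivity)]
  constructor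
  · intro h
    have : ((2 ^ st.2 : ℕ) : ℝ) ≤ ((st.1 * 2 ^ k : ℕ) : ℝ) := by exact_mod_cast h
    push_cast at this
    linarith
  · intro h
    have : ((2 ^ st.2 : ℕ) : ℝ) ≤ ((st.1 * 2 ^ k : ℕ) : ℝ) := by push_cast; linarith
    exact_mod_cast this

/-- Sum of the weights of all thresholds below `W` is at most `W`. -/
theorem threshold_sum (W : ℝ) (hW : 0 ≤ W) (N : ℕ) :
    ∑ k ∈ Finset.range N, (if (1 / 2 : ℝ) ^ k ≤ W then (1 / 2 : ℝ) ^ (k + 1) else 0) ≤ W := by
  have key : ∀ N, ∑ k ∈ Finset.range N, (if (1 / 2 : ℝ) ^ k ≤ W then (1 / 2 : ℝ) ^ (k + 1) else 0)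
      ≤ max (W - (1 / 2 : ℝ) ^ N) 0 := by
    intro N
    induction N with
    | zero => simp
    | succ N ih =>
      rw [Finset.sum_range_succ]
      have hp : (0 : ℝ) < (1 / 2 : ℝ) ^ N := by positivity
      have hs : (1 / 2 : ℝ) ^ (N + 1) = (1 / 2 : ℝ) ^ N / 2 := by rw [pow_succ]; ring
      split_ifs with h
      · rw [max_eq_left (by linarith)] at ih
        refine le_max_of_le_left ?_
        rw [hs]; linarith
      · rw [max_eq_right (by push Not at h; linarith)] at ih
        refine le_max_of_le_right ?_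
        linarith
  refine (key N).trans ?_
  have hp : (0 : ℝ) < (1 / 2 : ℝ) ^ N := by positivity
  exact max_le (by linarith) hW

end Pool.Agent.Lib_helper46
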