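import Mathlib
import Pool.Agent.Lib_helper46.Coding

set_option autoImplicit false

/-!
The coding theorem for lengths.
-/

namespace Pool.Agent.Lib_helper46

variable {e : ℕ → Option (List Bool × List Bool)}

/-- Accumulated mass. -/
noncomputable def acc (e : ℕ → Option (List Bool × List Bool)) (n s : ℕ) : ℝ :=
  ∑ t ∈ Finset.range s, mass e n t

theorem acc_nonneg (n s : ℕ) : 0 ≤ acc e n s :=
  Finset.sum_nonneg fun t _ => mass_nonneg e n t

theorem acc_succ (n s : ℕ) : acc e n (s + 1) = acc e n s + mass e n s := by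
  unfold acc; rw [Finset.sum_range_succ]

theorem acc_mono (n : ℕ) : Monotone (acc e n) :=
  monotone_nat_of_le_succ fun s => by rw [acc_succ]; linarith [mass_nonneg e n s]

/-- Crossing weight of threshold `2^{-k}` at stage `s` for `n`. -/
noncomputable def crossW (e : ℕ → Option (List Bool × List Bool)) (n s k : ℕ) : ℝ :=
  if ¬ (1 / 2 : ℝ) ^ k ≤ acc e n s ∧ (1 / 2 : ℝ) ^ k ≤ acc e n (s + 1)
    then (1 / 2 : ℝ) ^ (k + 1) else 0

theorem crossW_nonneg (n s k : ℕ) : 0 ≤ crossW e n s k := by
  unfold crossW; split_ifs <;> positivity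

theorem crossW_sum (n k N : ℕ) :
    ∑ s ∈ Finset.range N, crossW e n s k
      ≤ if (1 / 2 : ℝ) ^ k ≤ acc e n N then (1 / 2 : ℝ) ^ (k + 1) else 0 := by
  induction N with
  | zero =>
    simp only [Finset.range_zero, Finset.sum_empty]
    split_ifs <;> positivity
  | succ N ih =>
    rw [Finset.sum_range_succ]
    have hp : (0 : ℝ) < (1 / 2 : ℝ) ^ (k + 1) := by positivity
    by_cases h1 : (1 / 2 : ℝ) ^ k ≤ acc e n N
    · have h2 : (1 / 2 : ℝ) ^ k ≤ acc e n (N + 1) := h1.trans (acc_mono n (Nat.le_succ N))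
      rw [if_pos h1] at ih
      rw [if_pos h2]
      have : crossW e n N k = 0 := by unfold crossW; rw [if_neg]; tauto
      linarith
    · rw [if_neg h1] at ih
      by_cases h2 : (1 / 2 : ℝ) ^ k ≤ acc e n (N + 1)
      · rw [if_pos h2]
        have : crossW e n N k = (1 / 2 : ℝ) ^ (k + 1) := by unfold crossW; rw [if_pos ⟨h1, h2⟩]
        linarith
      · rw [if_neg h2]
        have : crossW e n N k = 0 := by unfold crossW; rw [if_neg]; tauto
        linarith

/-- The requests. -/
def reqT (bc : ℕ → List Bool) (e : ℕ → Option (List Bool × List Bool)) (i : ℕ) :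
    Option (List Bool × ℕ) :=
  (e i.unpair.1).bind fun r =>
    if ¬ big (wst e r.2.length i.unpair.1) i.unpair.2 ∧
        big (wst e r.2.length (i.unpair.1 + 1)) i.unpair.2
    then some (bc r.2.length, i.unpair.2 + 1) else none

theorem wt_reqT (bc : ℕ → List Bool) (s k : ℕ) :
    wt (reqT bc e (Nat.pair s k)) =
      Option.casesOn (e s) 0 fun r => crossW e r.2.length s k := by
  unfold reqT
  simp only [Nat.unpair_pair]
  rcases e s with _ | r
  · rfl
  · simp only [Option.bind_some]
    unfold crossW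
    simp only [big_iff, wst_real]
    change wt (if ¬(1 / 2 : ℝ) ^ k ≤ acc e r.2.length s ∧ (1 / 2 : ℝ) ^ k ≤ acc e r.2.length (s + 1)
      then some (bc r.2.length, k + 1) else none) = _
    split_ifs <;> rfl

theorem prog_sum_le
    (hpf : ∀ s t p q x y, e s = some (p, x) → e t = some (q, y) → p <+: q → p = q)
    (hinj : ∀ s t p x x', e s = some (p, x) → e t = some (p, x') → s = t) (N : ℕ) :
    ∑ t ∈ Finset.range N, (Option.casesOn (e t) 0 fun r => (1 / 2 : ℝ) ^ r.1.length : ℝ) ≤ 1 := by
  classical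
  let P : ℕ → List Bool := fun t => ((e t).map Prod.fst).getD []
  let T := (Finset.range N).filter fun t => (e t).isSome
  have h1 : ∑ t ∈ Finset.range N, (Option.casesOn (e t) 0 fun r => (1 / 2 : ℝ) ^ r.1.length : ℝ)
      = ∑ t ∈ T, (1 / 2 : ℝ) ^ (P t).length := by
    rw [Finset.sum_filter]
    refine Finset.sum_congr rfl fun t _ => ?_
    simp only [P]
    rcases e t with _ | r <;> simp
  have hTinj : Set.InjOn P (T : Set ℕ) := by
    intro s hs t ht hst
    simp only [T, Finset.coe_filter, Set.mem_ofPred_eq] at hs ht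
    obtain ⟨⟨p, x⟩, hp⟩ := Option.isSome_iff_exists.1 hs.2
    obtain ⟨⟨q, y⟩, hq⟩ := Option.isSome_iff_exists.1 ht.2
    simp only [P, hp, hq, Option.map_some, Option.getD_some] at hst
    subst hst
    exact hinj s t p x y hp hq
  rw [h1, ← Finset.sum_image (f := fun p : List Bool => (1 / 2 : ℝ) ^ p.length) hTinj]
  refine kraft_le _ ?_
  intro σ hσ τ hτ hst
  simp only [Finset.mem_image] at hσ hτ
  obtain ⟨s, hs, rfl⟩ := hσ
  obtain ⟨t, ht, rfl⟩ := hτ
  simp only [T, Finset.mem_filter] at hs ht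
  obtain ⟨⟨p, x⟩, hp⟩ := Option.isSome_iff_exists.1 hs.2
  obtain ⟨⟨q, y⟩, hq⟩ := Option.isSome_iff_exists.1 ht.2
  simp only [P, hp, hq, Option.map_some, Option.getD_some] at hst ⊢
  exact hpf s t p q x y hp hq hst

theorem reqT_sum (bc : ℕ → List Bool)
    (hpf : ∀ s t p q x y, e s = some (p, x) → e t = some (q, y) → p <+: q → p = q)
    (hinj : ∀ s t p x x', e s = some (p, x) → e t = some (p, x') → s = t) (N : ℕ) :
    ∑ i ∈ Finset.range N, wt (reqT bc e i) ≤ 1 := by
  classical
  have hwt_nonneg : ∀ o, 0 ≤ wt o := by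
    intro o; rcases o with _ | r
    · exact le_rfl
    · unfold wt; positivity
  -- a bound on all the lengths
  obtain ⟨B, hB⟩ : ∃ B, ∀ t < N, ∀ r, e t = some r → r.2.length < B := by
    refine ⟨(Finset.range N).sup (fun t => ((e t).map fun r => r.2.length).getD 0) + 1, ?_⟩
    intro t ht r hr
    have := Finset.le_sup (f := fun t => ((e t).map fun r => r.2.length).getD 0)
      (Finset.mem_range.2 ht)
    simp only [hr, Option.map_some, Option.getD_some] at this
    omega
  have h1 : ∑ i ∈ Finset.range N, wt (reqT bc e i)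
      ≤ ∑ x ∈ Finset.range N ×ˢ Finset.range N, wt (reqT bc e (Nat.pair x.1 x.2)) := by
    have hinj' : Set.InjOn Nat.unpair (Finset.range N : Set ℕ) := by
      intro a _ b _ hab
      rw [← Nat.pair_unpair a, ← Nat.pair_unpair b, hab]
    have h2 : ∑ i ∈ Finset.range N, wt (reqT bc e i)
        = ∑ x ∈ (Finset.range N).image Nat.unpair, wt (reqT bc e (Nat.pair x.1 x.2)) := by
      rw [Finset.sum_image hinj']
      refine Finset.sum_congr rfl fun i _ => ?_
      rw [Nat.pair_unpair]
    rw [h2]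
    refine Finset.sum_le_sum_of_subset_of_nonneg ?_ fun x _ _ => hwt_nonneg _
    intro x hx
    simp only [Finset.mem_image, Finset.mem_range] at hx
    obtain ⟨i, hi, rfl⟩ := hx
    simp only [Finset.mem_product, Finset.mem_range]
    exact ⟨lt_of_le_of_lt (Nat.unpair_left_le i) hi, lt_of_le_of_lt (Nat.unpair_right_le i) hi⟩
  have h2 : ∀ s < N, ∀ k, wt (reqT bc e (Nat.pair s k)) ≤ ∑ n ∈ Finset.range B, crossW e n s k := by
    intro s hs k
    rw [wt_reqT]
    rcases he : e s with _ | r
    · exact Finset.sum_nonneg fun n _ => crossW_nonneg n s k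
    · exact Finset.single_le_sum (f := fun n => crossW e n s k)
        (fun n _ => crossW_nonneg n s k) (Finset.mem_range.2 (hB s hs r he))
  calc ∑ i ∈ Finset.range N, wt (reqT bc e i)
      ≤ ∑ x ∈ Finset.range N ×ˢ Finset.range N, wt (reqT bc e (Nat.pair x.1 x.2)) := h1
    _ = ∑ s ∈ Finset.range N, ∑ k ∈ Finset.range N, wt (reqT bc e (Nat.pair s k)) := by
        rw [Finset.sum_product]
    _ ≤ ∑ s ∈ Finset.range N, ∑ k ∈ Finset.range N, ∑ n ∈ Finset.range B, crossW e n s k := by
        refine Finset.sum_le_sum fun s hs => Finset.sum_le_sum fun k _ => ?_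
        exact h2 s (Finset.mem_range.1 hs) k
    _ = ∑ n ∈ Finset.range B, ∑ k ∈ Finset.range N, ∑ s ∈ Finset.range N, crossW e n s k := by
        rw [Finset.sum_comm]
        simp_rw [Finset.sum_comm (s := Finset.range N) (t := Finset.range B)]
    _ ≤ ∑ n ∈ Finset.range B, ∑ k ∈ Finset.range N,
          (if (1 / 2 : ℝ) ^ k ≤ acc e n N then (1 / 2 : ℝ) ^ (k + 1) else 0) := by
        refine Finset.sum_le_sum fun n _ => Finset.sum_le_sum fun k _ => crossW_sum n k N
    _ ≤ ∑ n ∈ Finset.range B, acc e n N := by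
        refine Finset.sum_le_sum fun n _ => threshold_sum _ (acc_nonneg n N) N
    _ = ∑ t ∈ Finset.range N, ∑ n ∈ Finset.range B, mass e n t := by
        unfold acc
        rw [Finset.sum_comm]
    _ ≤ ∑ t ∈ Finset.range N, (Option.casesOn (e t) 0 fun r => (1 / 2 : ℝ) ^ r.1.length : ℝ) := by
        refine Finset.sum_le_sum fun t _ => ?_
        unfold mass
        rcases e t with _ | r
        · simp
        · simp only
          rw [Finset.sum_ite_eq]
          split_ifs
          · exact le_rfl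
          · positivity
    _ ≤ 1 := prog_sum_le hpf hinj N

/-- one step of `wst` -/
def wstStep (y : (ℕ × (ℕ × ℕ)) × (List Bool × List Bool)) : ℕ × ℕ :=
  if y.2.2.length = y.1.1 then
    (y.1.2.1 * 2 ^ y.2.1.length + 2 ^ y.1.2.2, y.1.2.2 + y.2.1.length) else y.1.2

theorem wstStep_primrec : Primrec wstStep := by
  have hst : Primrec (fun y : (ℕ × (ℕ × ℕ)) × (List Bool × List Bool) => y.1.2) :=
    Primrec.snd.comp Primrec.fst
  have ha : Primrec (fun y : (ℕ × (ℕ × ℕ)) × (List Bool × List Bool) => y.1.2.1) :=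
    Primrec.fst.comp hst
  have hb : Primrec (fun y : (ℕ × (ℕ × ℕ)) × (List Bool × List Bool) => y.1.2.2) :=
    Primrec.snd.comp hst
  have hl : Primrec (fun y : (ℕ × (ℕ × ℕ)) × (List Bool × List Bool) =>
    y.2.1.length) := Primrec.list_length.comp (Primrec.fst.comp Primrec.snd)
  have hp1 : Primrec (fun y : (ℕ × (ℕ × ℕ)) × (List Bool × List Bool) =>
    2 ^ y.2.1.length) := two_pow_primrec.comp hl
  have hp2 : Primrec (fun y : (ℕ × (ℕ × ℕ)) × (List Bool × List Bool) =>
    2 ^ y.1.2.2) := two_pow_primrec.comp hb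
  have h1 : Primrec (fun y : (ℕ × (ℕ × ℕ)) × (List Bool × List Bool) =>
    y.1.2.1 * 2 ^ y.2.1.length + 2 ^ y.1.2.2) :=
    Primrec.nat_add.comp (Primrec.nat_mul.comp ha hp1) hp2
  have h2 : Primrec (fun y : (ℕ × (ℕ × ℕ)) × (List Bool × List Bool) =>
    y.1.2.2 + y.2.1.length) := Primrec.nat_add.comp hb hl
  have hn : Primrec (fun y : (ℕ × (ℕ × ℕ)) × (List Bool × List Bool) => y.1.1) :=
    Primrec.fst.comp Primrec.fst
  have hx : Primrec (fun y : (ℕ × (ℕ × ℕ)) × (List Bool × List Bool) => y.2.2.length) :=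
    Primrec.list_length.comp (Primrec.snd.comp Primrec.snd)
  exact Primrec.ite (Primrec.eq.comp hx hn) (h1.pair h2) hst

theorem wst_computable₂ (he : Computable e) : Computable₂ (wst e) := by
  have h1 : Computable (fun a : (ℕ × ℕ) × (ℕ × (ℕ × ℕ)) => e a.2.1) :=
    he.comp (Computable.fst.comp Computable.snd)
  have h2 : Computable (fun a : (ℕ × ℕ) × (ℕ × (ℕ × ℕ)) => a.2.2) :=
    Computable.snd.comp Computable.snd
  have h3 : Computable (fun a : ((ℕ × ℕ) × (ℕ × (ℕ × ℕ))) × (List Bool × List Bool) =>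
      ((a.1.1.1, a.1.2.2), a.2)) :=
    ((Computable.fst.comp (Computable.fst.comp Computable.fst)).pair
      (Computable.snd.comp (Computable.snd.comp Computable.fst))).pair Computable.snd
  have h4 : Computable₂ (fun (a : (ℕ × ℕ) × (ℕ × (ℕ × ℕ))) (r : List Bool × List Bool) =>
      wstStep ((a.1.1, a.2.2), r)) := (wstStep_primrec.to_comp.comp h3).to₂
  have h5 : Computable₂ (fun (a : ℕ × ℕ) (x : ℕ × (ℕ × ℕ)) =>
      (Option.casesOn (e x.1) x.2 (fun r => wstStep ((a.1, x.2), r)) : ℕ × ℕ)) :=
    (Computable.option_casesOn h1 h2 h4).to₂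
  exact (Computable.nat_rec (f := fun x : ℕ × ℕ => x.2) (g := fun _ => ((0, 0) : ℕ × ℕ))
    Computable.snd (Computable.const (0, 0)) h5).to₂

theorem big_primrec : PrimrecRel big := by
  unfold big
  exact Primrec.nat_le.comp (two_pow_primrec.comp (Primrec.snd.comp Primrec.fst))
    (Primrec.nat_mul.comp (Primrec.fst.comp Primrec.fst) (two_pow_primrec.comp Primrec.snd))

/-- test used in `reqT` -/
def reqTest (y : ((ℕ × ℕ) × (ℕ × ℕ)) × (ℕ × List Bool)) : Option (List Bool × ℕ) :=
  if ¬ big y.1.1 y.2.1 ∧ big y.1.2 y.2.1 then some (y.2.2, y.2.1 + 1) else none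

theorem reqTest_primrec : Primrec reqTest := by
  unfold reqTest
  have hk : Primrec (fun y : ((ℕ × ℕ) × (ℕ × ℕ)) × (ℕ × List Bool) => y.2.1) :=
    Primrec.fst.comp Primrec.snd
  refine Primrec.ite (PrimrecPred.and (PrimrecPred.not ?_) ?_) ?_ (Primrec.const none)
  · exact big_primrec.comp (Primrec.fst.comp Primrec.fst) hk
  · exact big_primrec.comp (Primrec.snd.comp Primrec.fst) hk
  · exact Primrec.option_some.comp (Primrec.pair (Primrec.snd.comp Primrec.snd)
      (Primrec.succ.comp hk))

theorem reqT_computable {bc : ℕ → List Bool} (hbc : Computable bc) (he : Computable e) :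
    Computable (reqT bc e) := by
  have hw : Computable₂ (wst e) := wst_computable₂ he
  have h1 : Computable (fun i : ℕ => e i.unpair.1) :=
    he.comp (Computable.fst.comp Computable.unpair)
  have hs : Computable (fun x : ℕ × (List Bool × List Bool) => x.1.unpair.1) :=
    Computable.fst.comp (Computable.unpair.comp Computable.fst)
  have hk : Computable (fun x : ℕ × (List Bool × List Bool) => x.1.unpair.2) :=
    Computable.snd.comp (Computable.unpair.comp Computable.fst)
  have hn : Computable (fun x : ℕ × (List Bool × List Bool) => x.2.2.length) :=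
    Computable.list_length.comp (Computable.snd.comp Computable.snd)
  have hs1 : Computable (fun x : ℕ × (List Bool × List Bool) => x.1.unpair.1 + 1) :=
    Computable.succ.comp hs
  have ha : Computable (fun x : ℕ × (List Bool × List Bool) =>
      wst e x.2.2.length x.1.unpair.1) := hw.comp hn hs
  have hb : Computable (fun x : ℕ × (List Bool × List Bool) =>
      wst e x.2.2.length (x.1.unpair.1 + 1)) := hw.comp hn hs1
  have hc : Computable (fun x : ℕ × (List Bool × List Bool) => bc x.2.2.length) := hbc.comp hn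
  have hd : Computable (fun x : ℕ × (List Bool × List Bool) =>
      ((wst e x.2.2.length x.1.unpair.1, wst e x.2.2.length (x.1.unpair.1 + 1)),
        (x.1.unpair.2, bc x.2.2.length))) := (ha.pair hb).pair (hk.pair hc)
  have h2 : Computable (fun x : ℕ × (List Bool × List Bool) =>
      reqTest ((wst e x.2.2.length x.1.unpair.1, wst e x.2.2.length (x.1.unpair.1 + 1)),
        (x.1.unpair.2, bc x.2.2.length))) := reqTest_primrec.to_comp.comp hd
  exact Computable.option_bind h1 h2.to₂

theorem mass_pos_of_ne {n s : ℕ} (h : mass e n s ≠ 0) :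
    ∃ p x, e s = some (p, x) ∧ x.length = n := by
  unfold mass at h
  rcases he : e s with _ | ⟨p, x⟩
  · rw [he] at h; simp at h
  · rw [he] at h
    refine ⟨p, x, rfl, ?_⟩
    by_contra hne
    simp [hne] at h

/-- **Coding theorem for lengths.** If the outputs of length `n` have received mass at least
`2^{-k}`, then `n` has a description of length `k + 2` (for a suitable prefix-free machine). -/
theorem coding {bc : ℕ → List Bool} (hbc : Computable bc) (he : Computable e)
    (hpf : ∀ s t p q x y, e s = some (p, x) → e t = some (q, y) → p <+: q → p = q)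
    (hinj : ∀ s t p x x', e s = some (p, x) → e t = some (p, x') → s = t) :
    ∃ M : List Bool →. List Bool, Partrec M ∧ PrefixFree M ∧
      ∀ n N k, (1 / 2 : ℝ) ^ k ≤ acc e n N → ∃ σ : List Bool, σ.length = k + 2 ∧ bc n ∈ M σ := by
  obtain ⟨M, hM1, hM2, hM3⟩ := kraft_chaitin (reqT_computable hbc he) (reqT_sum bc hpf hinj)
  refine ⟨M, hM1, hM2, ?_⟩
  intro n N k hN
  classical
  have hex : ∃ N, (1 / 2 : ℝ) ^ k ≤ acc e n N := ⟨N, hN⟩
  let N0 := Nat.find hex
  have hN0 : (1 / 2 : ℝ) ^ k ≤ acc e n N0 := Nat.find_spec hex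
  have hne : N0 ≠ 0 := by
    intro h0
    rw [h0] at hN0
    have : acc e n 0 = 0 := by simp [acc]
    rw [this] at hN0
    have : (0 : ℝ) < (1 / 2 : ℝ) ^ k := by positivity
    linarith
  obtain ⟨s, hs⟩ := Nat.exists_eq_succ_of_ne_zero hne
  have hlt : ¬ (1 / 2 : ℝ) ^ k ≤ acc e n s := Nat.find_min hex (m := s) (by
    change s < N0; omega)
  rw [hs] at hN0
  have hN0' : (1 / 2 : ℝ) ^ k ≤ acc e n (s + 1) := hN0
  have hmass : mass e n s ≠ 0 := by
    intro h0
    rw [acc_succ, h0, add_zero] at hN0'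
    exact hlt hN0'
  obtain ⟨p, x, hx, hxn⟩ := mass_pos_of_ne hmass
  have hreq : reqT bc e (Nat.pair s k) = some (bc n, k + 1) := by
    unfold reqT
    simp only [Nat.unpair_pair, hx, Option.bind_some, hxn, big_iff, wst_real]
    exact if_pos ⟨hlt, hN0'⟩
  exact hM3 _ _ _ hreq

end Pool.Agent.Lib_helper46
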