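import Mathlib

set_option autoImplicit false

/-!
# Complexity of measures: definitions

Definitions for the problem MP_018646_lc: plain and prefix-free Kolmogorov complexity, the
complexity of a Borel probability measure on Cantor space at length `n`, and the properties
(A1), (B1), (A2) and (B2).
-/

namespace Pool.Agent.Lib_helper46.Measures

open MeasureTheory

/-- A machine is a partial function from binary strings (programs) to binary strings.
The complexity of `x` with respect to the machine `M` is the length of a shortest program that
makes `M` output `x`. -/
noncomputable def complexity (M : List Bool →. List Bool) (x : List Bool) : ℕ :=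
  sInf {k : ℕ | ∃ p : List Bool, p.length = k ∧ x ∈ M p}

/-- `M` has prefix-free domain: no program on which `M` halts is a proper prefix of another one. -/
def HasPrefixFreeDomain (M : List Bool →. List Bool) : Prop :=
  ∀ p q : List Bool, (M p).Dom → (M q).Dom → p <+: q → p = q

/-- `U` is a universal plain machine: it is partial computable and optimal, up to an additive
constant in the length of programs, among all partial computable machines. -/
structure IsUniversalPlain (U : List Bool →. List Bool) : Prop where
  partrec : Partrec U
  optimal : ∀ M : List Bool →. List Bool, Partrec M →
    ∃ c : ℕ, ∀ p x : List Bool, x ∈ M p → ∃ q : List Bool, x ∈ U q ∧ q.length ≤ p.length + c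

/-- `V` is a universal prefix-free machine: it is partial computable with prefix-free domain, and
optimal, up to an additive constant in the length of programs, among all partial computable
machines with prefix-free domain. -/
structure IsUniversalPrefixFree (V : List Bool →. List Bool) : Prop where
  partrec : Partrec V
  prefixFree : HasPrefixFreeDomain V
  optimal : ∀ M : List Bool →. List Bool, Partrec M → HasPrefixFreeDomain M →
    ∃ c : ℕ, ∀ p x : List Bool, x ∈ M p → ∃ q : List Bool, x ∈ V q ∧ q.length ≤ p.length + c

/-- The usual binary expansion of `n` (most significant digit first). -/
def binCode (n : ℕ) : List Bool := (Nat.bits n).reverse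

/-- The cylinder of all infinite sequences extending the string `x`. -/
def cylinder (x : List Bool) : Set (ℕ → Bool) := {ω | ∀ i : Fin x.length, ω i = x.get i}

/-- The `μ`-average of `κ x` over the strings `x` of length `n`, i.e.
`∑_{|x| = n} μ[x] κ(x)`. -/
noncomputable def average (κ : List Bool → ℕ) (μ : Measure (ℕ → Bool)) (n : ℕ) : ℝ :=
  ∑ x : List.Vector Bool n, μ.real (cylinder x.toList) * (κ x.toList : ℝ)

/-- Property (A2): `K(μ ↾ n) ≥ n + K(n) - c` for all `n`, where `K` is the complexity with respect
to the universal prefix-free machine `V`. -/
def A2 (V : List Bool →. List Bool) (μ : Measure (ℕ → Bool)) : Prop :=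
  ∃ c : ℝ, ∀ n : ℕ, average (complexity V) μ n ≥ n + complexity V (binCode n) - c

/-- Property (B2): `C(μ ↾ n) ≥ n - c` for all `n`, where `C` is the complexity with respect
to the universal plain machine `U`. -/
def B2 (U : List Bool →. List Bool) (μ : Measure (ℕ → Bool)) : Prop :=
  ∃ c : ℝ, ∀ n : ℕ, average (complexity U) μ n ≥ n - c

end Pool.Agent.Lib_helper46.Measures
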