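import Mathlib
import Pool.Agent.Lib_helper46.Coding2

set_option autoImplicit false

/-!
The plain machine describing extensions of strings with large prefix-free deficiency.
-/

namespace Pool.Agent.Lib_helper46

variable {e : ℕ → Option (List Bool × List Bool)}

/-- Test for stage data `r` to be an output of length `n` with program of length `≤ b`. -/
def good (n b : ℕ) (r : List Bool × List Bool) : Prop := r.2.length = n ∧ r.1.length ≤ b

instance (n b : ℕ) (r : List Bool × List Bool) : Decidable (good n b r) := by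
  unfold good; infer_instance

/-- Number of stages before `T` that are good for `n, b`. -/
def cnt (e : ℕ → Option (List Bool × List Bool)) (x : ℕ × ℕ) (T : ℕ) : ℕ :=
  Nat.rec 0 (fun t c => Option.casesOn (e t) c fun r => if good x.1 x.2 r then c + 1 else c) T

theorem cnt_zero (x : ℕ × ℕ) : cnt e x 0 = 0 := rfl

theorem cnt_succ_of_good {x : ℕ × ℕ} {t : ℕ} {r : List Bool × List Bool} (h : e t = some r)
    (hr : good x.1 x.2 r) : cnt e x (t + 1) = cnt e x t + 1 := by
  simp [cnt, h, hr]

theorem cnt_mono_succ (x : ℕ × ℕ) (t : ℕ) : cnt e x t ≤ cnt e x (t + 1) := by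
  have hs : cnt e x (t + 1) = Option.casesOn (e t) (cnt e x t) fun r =>
    if good x.1 x.2 r then cnt e x t + 1 else cnt e x t := rfl
  rw [hs]
  rcases e t with _ | r
  · exact le_rfl
  · simp only
    split_ifs <;> omega

theorem cnt_mono (x : ℕ × ℕ) : Monotone (cnt e x) := monotone_nat_of_le_succ (cnt_mono_succ x)

theorem cnt_le_acc (n b T : ℕ) : (cnt e (n, b) T : ℝ) * (1 / 2 : ℝ) ^ b ≤ acc e n T := by
  induction T with
  | zero => simp [cnt_zero, acc]
  | succ T ih =>
    rw [acc_succ]
    have hs : cnt e (n, b) (T + 1) = Option.casesOn (e T) (cnt e (n, b) T) fun r =>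
      if good n b r then cnt e (n, b) T + 1 else cnt e (n, b) T := rfl
    rw [hs]
    unfold mass
    rcases e T with _ | r
    · simpa using ih
    · simp only
      by_cases h : good n b r
      · rw [if_pos h, if_pos h.1]
        push_cast
        have : (1 / 2 : ℝ) ^ b ≤ (1 / 2 : ℝ) ^ r.1.length :=
          pow_le_pow_of_le_one (by norm_num) (by norm_num) h.2
        linarith
      · rw [if_neg h]
        split_ifs
        · have : (0 : ℝ) ≤ (1 / 2 : ℝ) ^ r.1.length := by positivity
          linarith
        · linarith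

theorem acc_le_one
    (hpf : ∀ s t p q x y, e s = some (p, x) → e t = some (q, y) → p <+: q → p = q)
    (hinj : ∀ s t p x x', e s = some (p, x) → e t = some (p, x') → s = t) (n N : ℕ) :
    acc e n N ≤ 1 := by
  refine le_trans ?_ (prog_sum_le hpf hinj N)
  unfold acc
  refine Finset.sum_le_sum fun t _ => ?_
  unfold mass
  rcases e t with _ | r
  · exact le_rfl
  · simp only
    split_ifs
    · exact le_rfl
    · positivity

/-- The stage test used in the search. -/
def pick (y : ((ℕ × ℕ) × ℕ) × (ℕ × (List Bool × List Bool))) : Option (List Bool) :=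
  if y.2.2.2.length = y.1.1.1 ∧ y.2.2.1.length ≤ y.1.1.2 ∧ y.2.1 = y.1.2
  then some y.2.2.2 else none

/-- The search function: `((n,b),i), t ↦` the output at stage `t` if it is the `i`-th good one. -/
def search (e : ℕ → Option (List Bool × List Bool)) (a : (ℕ × ℕ) × ℕ) (t : ℕ) :
    Option (List Bool) :=
  (e t).bind fun r => pick (a, (cnt e a.1 t, r))

theorem search_eq_some {n b i t : ℕ} {x : List Bool} :
    search e ((n, b), i) t = some x ↔ ∃ p, e t = some (p, x) ∧ x.length = n ∧ p.length ≤ b ∧
      cnt e (n, b) t = i := by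
  unfold search pick
  simp only [Option.bind_eq_some_iff, Prod.exists]
  constructor
  · rintro ⟨p, x', h1, h2⟩
    split_ifs at h2 with h3
    simp only [Option.some.injEq] at h2
    subst h2
    exact ⟨p, h1, h3.1, h3.2.1, h3.2.2⟩
  · rintro ⟨p, h1, h2, h3, h4⟩
    exact ⟨p, x, h1, by rw [if_pos ⟨h2, h3, h4⟩]⟩

theorem search_unique {n b i t t' : ℕ} {x x' : List Bool}
    (h : search e ((n, b), i) t = some x) (h' : search e ((n, b), i) t' = some x') : t = t' := by
  obtain ⟨p, h1, h2, h3, h4⟩ := search_eq_some.1 h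
  obtain ⟨p', h1', h2', h3', h4'⟩ := search_eq_some.1 h'
  have a1 : cnt e (n, b) (t + 1) = i + 1 := by
    rw [cnt_succ_of_good h1 ⟨h2, h3⟩, h4]
  have a2 : cnt e (n, b) (t' + 1) = i + 1 := by
    rw [cnt_succ_of_good h1' ⟨h2', h3'⟩, h4']
  rcases lt_trichotomy t t' with hlt | heq | hlt
  · have := cnt_mono (e := e) (n, b) (show t + 1 ≤ t' from hlt)
    omega
  · exact heq
  · have := cnt_mono (e := e) (n, b) (show t' + 1 ≤ t from hlt)
    omega

theorem cnt_computable₂ (he : Computable e) : Computable₂ (cnt e) := by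
  have hstep : Primrec (fun y : ((ℕ × ℕ) × ℕ) × (List Bool × List Bool) =>
      if y.2.2.length = y.1.1.1 ∧ y.2.1.length ≤ y.1.1.2 then y.1.2 + 1 else y.1.2) := by
    have hc : Primrec (fun y : ((ℕ × ℕ) × ℕ) × (List Bool × List Bool) => y.1.2) :=
      Primrec.snd.comp Primrec.fst
    have hn : Primrec (fun y : ((ℕ × ℕ) × ℕ) × (List Bool × List Bool) => y.1.1.1) :=
      Primrec.fst.comp (Primrec.fst.comp Primrec.fst)
    have hb : Primrec (fun y : ((ℕ × ℕ) × ℕ) × (List Bool × List Bool) => y.1.1.2) :=
      Primrec.snd.comp (Primrec.fst.comp Primrec.fst)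
    have hx : Primrec (fun y : ((ℕ × ℕ) × ℕ) × (List Bool × List Bool) => y.2.2.length) :=
      Primrec.list_length.comp (Primrec.snd.comp Primrec.snd)
    have hp : Primrec (fun y : ((ℕ × ℕ) × ℕ) × (List Bool × List Bool) => y.2.1.length) :=
      Primrec.list_length.comp (Primrec.fst.comp Primrec.snd)
    exact Primrec.ite ((Primrec.eq.comp hx hn).and (Primrec.nat_le.comp hp hb))
      (Primrec.succ.comp hc) hc
  have h1 : Computable (fun a : (ℕ × ℕ) × (ℕ × ℕ) => e a.2.1) :=
    he.comp (Computable.fst.comp Computable.snd)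
  have h2 : Computable (fun a : (ℕ × ℕ) × (ℕ × ℕ) => a.2.2) :=
    Computable.snd.comp Computable.snd
  have h3 : Computable (fun a : ((ℕ × ℕ) × (ℕ × ℕ)) × (List Bool × List Bool) =>
      ((a.1.1, a.1.2.2), a.2)) :=
    ((Computable.fst.comp Computable.fst).pair
      (Computable.snd.comp (Computable.snd.comp Computable.fst))).pair Computable.snd
  have h4 : Computable₂ (fun (a : (ℕ × ℕ) × (ℕ × ℕ)) (r : List Bool × List Bool) =>
      if r.2.length = a.1.1 ∧ r.1.length ≤ a.1.2 then a.2.2 + 1 else a.2.2) :=
    (hstep.to_comp.comp h3).to₂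
  have h5 : Computable₂ (fun (a : ℕ × ℕ) (x : ℕ × ℕ) =>
      (Option.casesOn (e x.1) x.2 (fun r =>
        if r.2.length = a.1 ∧ r.1.length ≤ a.2 then x.2 + 1 else x.2) : ℕ)) :=
    (Computable.option_casesOn h1 h2 h4).to₂
  exact (Computable.nat_rec (f := fun x : (ℕ × ℕ) × ℕ => x.2) (g := fun _ => (0 : ℕ))
    (h := fun (a : (ℕ × ℕ) × ℕ) (x : ℕ × ℕ) => (Option.casesOn (e x.1) x.2 (fun r =>
        if r.2.length = a.1.1 ∧ r.1.length ≤ a.1.2 then x.2 + 1 else x.2) : ℕ))
    Computable.snd (Computable.const 0)
    (h5.comp (Computable.fst.comp Computable.fst) Computable.snd).to₂).to₂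

theorem pick_primrec : Primrec pick := by
  unfold pick
  have hx : Primrec (fun y : ((ℕ × ℕ) × ℕ) × (ℕ × (List Bool × List Bool)) => y.2.2.2) :=
    Primrec.snd.comp (Primrec.snd.comp Primrec.snd)
  have hp : Primrec (fun y : ((ℕ × ℕ) × ℕ) × (ℕ × (List Bool × List Bool)) => y.2.2.1) :=
    Primrec.fst.comp (Primrec.snd.comp Primrec.snd)
  have hn : Primrec (fun y : ((ℕ × ℕ) × ℕ) × (ℕ × (List Bool × List Bool)) => y.1.1.1) :=
    Primrec.fst.comp (Primrec.fst.comp Primrec.fst)
  have hb : Primrec (fun y : ((ℕ × ℕ) × ℕ) × (ℕ × (List Bool × List Bool)) => y.1.1.2) :=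
    Primrec.snd.comp (Primrec.fst.comp Primrec.fst)
  have hi : Primrec (fun y : ((ℕ × ℕ) × ℕ) × (ℕ × (List Bool × List Bool)) => y.1.2) :=
    Primrec.snd.comp Primrec.fst
  have hc : Primrec (fun y : ((ℕ × ℕ) × ℕ) × (ℕ × (List Bool × List Bool)) => y.2.1) :=
    Primrec.fst.comp Primrec.snd
  exact Primrec.ite ((Primrec.eq.comp (Primrec.list_length.comp hx) hn).and
    ((Primrec.nat_le.comp (Primrec.list_length.comp hp) hb).and (Primrec.eq.comp hc hi)))
    (Primrec.option_some.comp hx) (Primrec.const none)

theorem search_computable₂ (he : Computable e) : Computable₂ (search e) := by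
  have hcnt := cnt_computable₂ he
  have h1 : Computable (fun x : ((ℕ × ℕ) × ℕ) × ℕ => e x.2) := he.comp Computable.snd
  have h2 : Computable (fun x : (((ℕ × ℕ) × ℕ) × ℕ) × (List Bool × List Bool) =>
      cnt e x.1.1.1 x.1.2) :=
    hcnt.comp (Computable.fst.comp (Computable.fst.comp Computable.fst))
      (Computable.snd.comp Computable.fst)
  have h3 : Computable (fun x : (((ℕ × ℕ) × ℕ) × ℕ) × (List Bool × List Bool) =>
      (x.1.1, (cnt e x.1.1.1 x.1.2, x.2))) :=
    (Computable.fst.comp Computable.fst).pair (h2.pair Computable.snd)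
  have h4 : Computable₂ (fun (x : ((ℕ × ℕ) × ℕ) × ℕ) (r : List Bool × List Bool) =>
      pick (x.1, (cnt e x.1.1 x.2, r))) := (pick_primrec.to_comp.comp h3).to₂
  exact (Computable.option_bind h1 h4).to₂

/-- Number of leading ones. -/
def lead (s : List Bool) : ℕ := (s.takeWhile id).length

/-- The remaining part. -/
def rest (s : List Bool) : List Bool := s.drop (lead s + 1)

/-- The number `m` read off from the input. -/
def mOf (d : ℕ) (s : List Bool) : ℕ := (rest s).length + 2 * lead s - (d + 1)

/-- Length of the index part. -/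
def lenOf (d : ℕ) (s : List Bool) : ℕ := (mOf d s).unpair.1 + (d + 1) - 2 * lead s

/-- Search parameters. -/
def paramOf (d : ℕ) (s : List Bool) : (ℕ × ℕ) × ℕ :=
  (((mOf d s).unpair.1, (mOf d s).unpair.1 + (mOf d s).unpair.2 - 2 * lead s),
    val ((rest s).take (lenOf d s)))

/-- The tail to be appended. -/
def tailOf (d : ℕ) (s : List Bool) : List Bool := (rest s).drop (lenOf d s)

/-- The plain machine. -/
def plainM (e : ℕ → Option (List Bool × List Bool)) (d : ℕ) : List Bool →. List Bool :=
  fun s => (Nat.rfindOpt (search e (paramOf d s))).map (fun x => x ++ tailOf d s)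

theorem lead_primrec : Primrec lead :=
  Primrec.list_length.comp (Primrec.list_takeWhile Primrec.id)

theorem rest_primrec : Primrec rest :=
  Primrec.list_drop.comp (Primrec.succ.comp lead_primrec) Primrec.id

theorem two_lead_primrec : Primrec (fun s => 2 * lead s) :=
  Primrec.nat_mul.comp (Primrec.const 2) lead_primrec

theorem mOf_primrec (d : ℕ) : Primrec (mOf d) :=
  Primrec.nat_sub.comp (Primrec.nat_add.comp (Primrec.list_length.comp rest_primrec)
    two_lead_primrec) (Primrec.const (d + 1))

theorem mOf1_primrec (d : ℕ) : Primrec (fun s => (mOf d s).unpair.1) :=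
  Primrec.fst.comp (Primrec.unpair.comp (mOf_primrec d))

theorem mOf2_primrec (d : ℕ) : Primrec (fun s => (mOf d s).unpair.2) :=
  Primrec.snd.comp (Primrec.unpair.comp (mOf_primrec d))

theorem lenOf_primrec (d : ℕ) : Primrec (lenOf d) :=
  Primrec.nat_sub.comp (Primrec.nat_add.comp (mOf1_primrec d) (Primrec.const (d + 1)))
    two_lead_primrec

theorem paramOf_primrec (d : ℕ) : Primrec (paramOf d) :=
  ((mOf1_primrec d).pair (Primrec.nat_sub.comp
    (Primrec.nat_add.comp (mOf1_primrec d) (mOf2_primrec d)) two_lead_primrec)).pair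
    (val_primrec.comp (Primrec.list_take.comp (lenOf_primrec d) rest_primrec))

theorem tailOf_primrec (d : ℕ) : Primrec (tailOf d) :=
  Primrec.list_drop.comp (lenOf_primrec d) rest_primrec

theorem plainM_partrec (he : Computable e) (d : ℕ) : Partrec (plainM e d) := by
  have h1 : Partrec (fun a : (ℕ × ℕ) × ℕ => Nat.rfindOpt (search e a)) :=
    Partrec.rfindOpt (search_computable₂ he)
  have h2 : Partrec (fun s : List Bool => Nat.rfindOpt (search e (paramOf d s))) :=
    h1.comp (paramOf_primrec d).to_comp
  have h3 : Computable₂ (fun (s : List Bool) (x : List Bool) => x ++ tailOf d s) :=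
    (Computable.list_append.comp Computable.snd
      ((tailOf_primrec d).to_comp.comp Computable.fst)).to₂
  exact h2.map h3

theorem plainM_spec {d n v k b i t : ℕ} {x z u : List Bool}
    (hx : search e ((n, b), i) t = some x)
    (hb : b = n + v - 2 * k) (hk : 2 * k ≤ n + d)
    (hu : u.length = n + (d + 1) - 2 * k) (hi : val u = i)
    (hz : n + z.length = Nat.pair n v) :
    x ++ z ∈ plainM e d (List.replicate k true ++ false :: (u ++ z)) := by
  set s := List.replicate k true ++ false :: (u ++ z) with hs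
  have h1 : lead s = k := by
    unfold lead
    rw [hs, List.takeWhile_append_of_pos (by
      intro a ha; rw [List.mem_replicate] at ha; simp [ha.2])]
    simp
  have h2 : rest s = u ++ z := by
    unfold rest
    rw [h1, hs]
    have : List.replicate k true ++ false :: (u ++ z)
        = (List.replicate k true ++ [false]) ++ (u ++ z) := by simp
    rw [this]
    exact List.drop_left' (by simp)
  have h3 : mOf d s = Nat.pair n v := by
    unfold mOf
    rw [h1, h2, List.length_append, ← hz]
    omega
  have h4 : lenOf d s = u.length := by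
    unfold lenOf
    rw [h3, h1, Nat.unpair_pair, hu]
  have h5 : paramOf d s = ((n, b), i) := by
    unfold paramOf
    rw [h4, h3, h1, h2, Nat.unpair_pair, List.take_left' rfl, hi, hb]
  have h6 : tailOf d s = z := by
    unfold tailOf
    rw [h4, h2, List.drop_left' rfl]
  unfold plainM
  rw [h5, h6]
  have hdom : (Nat.rfindOpt (search e ((n, b), i))).Dom := Nat.rfindOpt_dom.2 ⟨t, x, hx⟩
  obtain ⟨t', ht'⟩ := Nat.rfindOpt_spec (Part.get_mem hdom)
  have htt : t' = t := search_unique ht' hx
  subst htt
  rw [Option.mem_def, hx] at ht'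
  simp only [Option.some.injEq] at ht'
  have hmem : x ∈ Nat.rfindOpt (search e ((n, b), i)) := by
    rw [ht']; exact Part.get_mem hdom
  exact Part.mem_map _ hmem

end Pool.Agent.Lib_helper46
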