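import Mathlib
import Pool.Agent.Lib_helper46.Plain
import Pool.Agent.Lib_helper46.KDefs

set_option autoImplicit false

/-!
# Existence of universal machines

Sanity check for the definitions in `KDefs.lean`: universal plain machines and universal
prefix-free machines exist.
-/

namespace Pool.Agent.Lib_helper46.Measures

open Encodable Denumerable
open Nat.Partrec (Code)

/-- Splitting a program `1^k 0 p`. -/
theorem lead_spec (k : ℕ) (p : List Bool) : lead (List.replicate k true ++ false :: p) = k := by
  unfold lead
  rw [List.takeWhile_append_of_pos (by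
    intro a ha; rw [List.mem_replicate] at ha; simp [ha.2])]
  simp

theorem rest_spec (k : ℕ) (p : List Bool) : rest (List.replicate k true ++ false :: p) = p := by
  unfold rest
  rw [lead_spec]
  have : List.replicate k true ++ false :: p = (List.replicate k true ++ [false]) ++ p := by simp
  rw [this]
  exact List.drop_left' (by simp)

theorem exists_code_str {M : List Bool →. List Bool} (hM : Partrec M) :
    ∃ c : Code, ∀ a : List Bool, Code.eval c (encode a) = (M a).map encode := by
  obtain ⟨c, hc⟩ := Code.exists_code.1 hM
  refine ⟨c, fun a => ?_⟩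
  have := congrFun hc (encode a)
  simpa using this

/-- Universal plain machines exist. -/
theorem exists_universalPlain : ∃ U : List Bool →. List Bool, IsUniversalPlain U := by
  refine ⟨fun s => (Code.eval (ofNat Code (lead s)) (encode (rest s))).bind
    (fun y => ((decode y : Option (List Bool)) : Part (List Bool))), ?_, ?_⟩
  · refine Partrec.bind ?_ ?_
    · exact Code.eval_part.comp ((Computable.ofNat Code).comp lead_primrec.to_comp)
        (Computable.encode.comp rest_primrec.to_comp)
    · exact (Computable.ofOption (Computable.decode.comp Computable.snd)).to₂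
  · intro M hM
    obtain ⟨c, hc⟩ := exists_code_str hM
    refine ⟨encode c + 1, fun p x hx => ⟨List.replicate (encode c) true ++ false :: p, ?_, ?_⟩⟩
    · rw [lead_spec, rest_spec, ofNat_encode, hc]
      refine Part.mem_bind_iff.2 ⟨encode x, Part.mem_map _ hx, ?_⟩
      simp
    · simp; omega

/-- Uniform enumeration by stages of the graph of the machine with code number `k`. -/
def enumU (k t : ℕ) : Option (List Bool × List Bool) :=
  (decode₂ (List Bool) t.unpair.2).bind fun a =>
    if (Code.evaln t.unpair.1 (ofNat Code k) (encode a)).isSome then none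
    else ((Code.evaln (t.unpair.1 + 1) (ofNat Code k) (encode a)).bind
      (fun y => decode (α := List Bool) y)).map (fun b => (a, b))

theorem enumU_iff {k s : ℕ} {a b : List Bool} : enumU k s = some (a, b) ↔
    (encode a = s.unpair.2 ∧ Code.evaln s.unpair.1 (ofNat Code k) (encode a) = none ∧
      ∃ y, Code.evaln (s.unpair.1 + 1) (ofNat Code k) (encode a) = some y ∧
        decode (α := List Bool) y = some b) := by
  simp only [enumU, Option.bind_eq_some_iff]
  constructor
  · rintro ⟨a', ha', h⟩
    have ha'' : encode a' = s.unpair.2 := Encodable.mem_decode₂.1 ha'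
    split_ifs at h with h1
    simp only [Option.map_eq_some_iff, Option.bind_eq_some_iff, Prod.mk.injEq] at h
    obtain ⟨b', ⟨y, hy, hb'⟩, rfl, rfl⟩ := h
    refine ⟨ha'', by simpa using h1, y, hy, hb'⟩
  · rintro ⟨h1, h2, y, hy, hb⟩
    refine ⟨a, Encodable.mem_decode₂.2 h1, ?_⟩
    simp [h2, hy, hb]

theorem enumU_primrec : Primrec₂ enumU := by
  have hk : Primrec (fun x : ℕ × ℕ => ofNat Code x.1) := (Primrec.ofNat Code).comp Primrec.fst
  have hs : Primrec (fun x : ℕ × ℕ => x.2.unpair.1) :=
    Primrec.fst.comp (Primrec.unpair.comp Primrec.snd)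
  have hi : Primrec (fun x : ℕ × ℕ => x.2.unpair.2) :=
    Primrec.snd.comp (Primrec.unpair.comp Primrec.snd)
  refine Primrec.option_bind (Primrec.decode₂.comp hi) ?_
  have hev : Primrec (fun x : (ℕ × ℕ) × List Bool =>
      Code.evaln x.1.2.unpair.1 (ofNat Code x.1.1) (encode x.2)) :=
    Code.primrec_evaln.comp (Primrec.pair (Primrec.pair (hs.comp Primrec.fst)
      (hk.comp Primrec.fst)) (Primrec.encode.comp Primrec.snd))
  have hev' : Primrec (fun x : (ℕ × ℕ) × List Bool =>
      Code.evaln (x.1.2.unpair.1 + 1) (ofNat Code x.1.1) (encode x.2)) :=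
    Code.primrec_evaln.comp (Primrec.pair (Primrec.pair (Primrec.succ.comp (hs.comp Primrec.fst))
      (hk.comp Primrec.fst)) (Primrec.encode.comp Primrec.snd))
  refine Primrec.ite (c := fun x : (ℕ × ℕ) × List Bool =>
    (Code.evaln x.1.2.unpair.1 (ofNat Code x.1.1) (encode x.2)).isSome = true)
    ?_ (Primrec.const _) ?_
  · exact Primrec.eq.comp (Primrec.option_isSome.comp hev) (Primrec.const true)
  · refine Primrec.option_map ?_ ?_
    · exact Primrec.option_bind hev' (Primrec.decode.comp Primrec.snd).to₂
    · exact (Primrec.pair (Primrec.snd.comp Primrec.fst) Primrec.snd).to₂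

theorem enumU_stage_unique {k s t : ℕ} {a b b' : List Bool} (hs : enumU k s = some (a, b))
    (ht : enumU k t = some (a, b')) : s = t := by
  obtain ⟨h1, h2, y, hy, hb⟩ := enumU_iff.1 hs
  obtain ⟨h1', h2', y', hy', hb'⟩ := enumU_iff.1 ht
  have hk : s.unpair.1 = t.unpair.1 := by
    rcases lt_trichotomy s.unpair.1 t.unpair.1 with h | h | h
    · exfalso
      have := Code.evaln_mono (k₁ := s.unpair.1 + 1) (k₂ := t.unpair.1) (by omega) hy
      rw [h2'] at this
      exact absurd this (by simp)
    · exact h
    · exfalso
      have := Code.evaln_mono (k₁ := t.unpair.1 + 1) (k₂ := s.unpair.1) (by omega) hy'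
      rw [h2] at this
      exact absurd this (by simp)
  have h2 : s.unpair = t.unpair := Prod.ext hk (h1.symm.trans h1')
  calc s = Nat.pair s.unpair.1 s.unpair.2 := (Nat.pair_unpair s).symm
    _ = Nat.pair t.unpair.1 t.unpair.2 := by rw [h2]
    _ = t := Nat.pair_unpair t

theorem enumU_complete {M : List Bool →. List Bool} {c : Code}
    (hc : ∀ a : List Bool, Code.eval c (encode a) = (M a).map encode) :
    (∀ s a b, enumU (encode c) s = some (a, b) → b ∈ M a) ∧
      (∀ a b, b ∈ M a → ∃ s, enumU (encode c) s = some (a, b)) := by
  constructor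
  · intro s a b h
    obtain ⟨h1, h2, y, hy, hb⟩ := enumU_iff.1 h
    rw [ofNat_encode] at hy
    have h3 : y ∈ Code.eval c (encode a) := Code.evaln_sound hy
    rw [hc a] at h3
    simp only [Part.mem_map_iff] at h3
    obtain ⟨b', hb', rfl⟩ := h3
    rw [Encodable.encodek] at hb
    cases hb
    exact hb'
  · intro a b hb
    have h1 : encode b ∈ Code.eval c (encode a) := by
      rw [hc a]; exact Part.mem_map _ hb
    obtain ⟨k, hk⟩ := Code.evaln_complete.1 h1
    classical
    have hex : ∃ k, (Code.evaln k c (encode a)).isSome := ⟨k, by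
      rw [Option.mem_def] at hk; simp [hk]⟩
    let k0 := Nat.find hex
    have hk0 : (Code.evaln k0 c (encode a)).isSome := Nat.find_spec hex
    have hpos : k0 ≠ 0 := by
      intro h0
      rw [h0] at hk0
      simp [Code.evaln] at hk0
    obtain ⟨k1, hk1⟩ := Nat.exists_eq_succ_of_ne_zero hpos
    have hnone : Code.evaln k1 c (encode a) = none := by
      have := Nat.find_min hex (m := k1) (by
        change k1 < k0; omega)
      simpa using this
    obtain ⟨y, hy⟩ := Option.isSome_iff_exists.1 hk0
    have hy' : y ∈ Code.eval c (encode a) := Code.evaln_sound hy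
    have hyb : y = encode b := Part.mem_unique hy' h1
    refine ⟨Nat.pair k1 (encode a), enumU_iff.2 ?_⟩
    simp only [Nat.unpair_pair, ofNat_encode]
    refine ⟨trivial, hnone, y, ?_, ?_⟩
    · rw [← hy, hk1]
    · rw [hyb, Encodable.encodek]

/-- Comparable strings. -/
def cmp (p q : List Bool) : Prop := q.take p.length = p ∨ p.take q.length = q

instance (p q : List Bool) : Decidable (cmp p q) := by unfold cmp; infer_instance

theorem cmp_of_isPre {p q : List Bool} (h : p <+: q) : cmp p q := by
  left
  exact (List.prefix_iff_eq_take.1 h).symm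

theorem cmp_symm {p q : List Bool} (h : cmp p q) : cmp q p := Or.symm h

theorem cmp_primrec : PrimrecRel cmp := by
  have h1 : Primrec (fun x : List Bool × List Bool => x.2.take x.1.length) :=
    Primrec.list_take.comp (Primrec.list_length.comp Primrec.fst) Primrec.snd
  have h2 : Primrec (fun x : List Bool × List Bool => x.1.take x.2.length) :=
    Primrec.list_take.comp (Primrec.list_length.comp Primrec.snd) Primrec.fst
  exact (Primrec.eq.comp h1 Primrec.fst).or (Primrec.eq.comp h2 Primrec.snd)

/-- No program enumerated before stage `t` is comparable with `p`. -/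
def okU (x : ℕ × List Bool) (t : ℕ) : Bool :=
  Nat.rec true (fun s b => Option.casesOn (enumU x.1 s) b
    (fun r => if cmp r.1 x.2 then false else b)) t

theorem okU_iff {k : ℕ} {p : List Bool} {t : ℕ} :
    okU (k, p) t = true ↔ ∀ s < t, ∀ q y, enumU k s = some (q, y) → ¬ cmp q p := by
  induction t with
  | zero => simp [okU]
  | succ t ih =>
    have hs : okU (k, p) (t + 1) = Option.casesOn (enumU k t) (okU (k, p) t)
      (fun r => if cmp r.1 p then false else okU (k, p) t) := rfl
    rw [hs]
    constructor
    · intro h s hst q y hq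
      rcases Nat.lt_succ_iff_lt_or_eq.1 hst with h1 | h1
      · rcases he : enumU k t with _ | r
        · rw [he] at h; exact ih.1 h s h1 q y hq
        · rw [he] at h
          simp only at h
          split_ifs at h with h2
          exact ih.1 h s h1 q y hq
      · subst h1
        rw [hq] at h
        simp only at h
        split_ifs at h with h2
        exact h2
    · intro h
      have h0 : okU (k, p) t = true := ih.2 fun s hs q y hq => h s (by omega) q y hq
      rcases he : enumU k t with _ | ⟨q, y⟩
      · exact h0
      · simp only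
        rw [if_neg (h t (by omega) q y he)]
        exact h0

theorem okU_primrec : Primrec₂ okU := by
  have h5 : Primrec₂ (fun (x : ℕ × List Bool) (u : ℕ × Bool) =>
      (Option.casesOn (enumU x.1 u.1) u.2 (fun r => if cmp r.1 x.2 then false else u.2) : Bool)) := by
    have h1 : Primrec (fun a : (ℕ × List Bool) × (ℕ × Bool) => enumU a.1.1 a.2.1) :=
      enumU_primrec.comp (Primrec.fst.comp Primrec.fst) (Primrec.fst.comp Primrec.snd)
    have h2 : Primrec (fun a : (ℕ × List Bool) × (ℕ × Bool) => a.2.2) :=
      Primrec.snd.comp Primrec.snd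
    have h4 : Primrec₂ (fun (a : (ℕ × List Bool) × (ℕ × Bool)) (r : List Bool × List Bool) =>
        if cmp r.1 a.1.2 then false else a.2.2) := by
      refine Primrec.ite (cmp_primrec.comp (Primrec.fst.comp Primrec.snd)
        (Primrec.snd.comp (Primrec.fst.comp Primrec.fst))) (Primrec.const false) ?_
      exact Primrec.snd.comp (Primrec.snd.comp Primrec.fst)
    exact (Primrec.option_casesOn h1 h2 h4).to₂
  exact Primrec.nat_rec (Primrec.const true) h5

/-- The stage test of the universal prefix-free machine. -/
def testU (s : List Bool) (t : ℕ) : Option (List Bool) :=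
  (enumU (lead s) t).bind fun r =>
    if r.1 = rest s ∧ okU (lead s, rest s) t = true then some r.2 else none

theorem testU_iff {s : List Bool} {t : ℕ} {x : List Bool} :
    testU s t = some x ↔ enumU (lead s) t = some (rest s, x) ∧
      okU (lead s, rest s) t = true := by
  simp only [testU, Option.bind_eq_some_iff, Prod.exists]
  constructor
  · rintro ⟨p, y, h1, h2⟩
    split_ifs at h2 with h3
    simp only [Option.some.injEq] at h2
    rw [← h2, ← h3.1]
    exact ⟨h1, by rw [h3.1]; exact h3.2⟩
  · rintro ⟨h1, h2⟩
    exact ⟨rest s, x, h1, by rw [if_pos ⟨rfl, h2⟩]⟩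

theorem testU_primrec : Primrec₂ testU := by
  have h1 : Primrec (fun x : List Bool × ℕ => enumU (lead x.1) x.2) :=
    enumU_primrec.comp (lead_primrec.comp Primrec.fst) Primrec.snd
  refine Primrec.option_bind h1 ?_
  have hr1 : Primrec (fun x : (List Bool × ℕ) × (List Bool × List Bool) => x.2.1) :=
    Primrec.fst.comp Primrec.snd
  have hl : Primrec (fun x : (List Bool × ℕ) × (List Bool × List Bool) => lead x.1.1) :=
    lead_primrec.comp (Primrec.fst.comp Primrec.fst)
  have hrs : Primrec (fun x : (List Bool × ℕ) × (List Bool × List Bool) => rest x.1.1) :=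
    rest_primrec.comp (Primrec.fst.comp Primrec.fst)
  have hok : Primrec (fun x : (List Bool × ℕ) × (List Bool × List Bool) =>
      okU (lead x.1.1, rest x.1.1) x.1.2) :=
    okU_primrec.comp (hl.pair hrs) (Primrec.snd.comp Primrec.fst)
  exact Primrec.ite ((Primrec.eq.comp hr1 hrs).and (Primrec.eq.comp hok (Primrec.const true)))
    (Primrec.option_some.comp (Primrec.snd.comp Primrec.snd)) (Primrec.const none)

/-- Universal prefix-free machines exist. -/
theorem exists_universalPrefixFree :
    ∃ V : List Bool →. List Bool, IsUniversalPrefixFree V := by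
  -- require that the program is really of the form `1^k 0 p`
  let T : List Bool → ℕ → Option (List Bool) := fun s t =>
    if s = List.replicate (lead s) true ++ false :: rest s then testU s t else none
  have hrep : Primrec (fun n : ℕ => List.replicate n true) := by
    refine (Primrec.nat_rec₁ (f := fun _ (IH : List Bool) => true :: IH) []
      (Primrec.list_cons.comp (Primrec.const true) Primrec.snd)).of_eq fun n => ?_
    induction n with
    | zero => rfl
    | succ n ih => simp only [ih]; rfl
  have hT : Primrec₂ T := by
    refine Primrec.ite (Primrec.eq.comp Primrec.fst (Primrec.list_append.comp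
      (hrep.comp (lead_primrec.comp Primrec.fst))
      (Primrec.list_cons.comp (Primrec.const false) (rest_primrec.comp Primrec.fst)))) ?_
      (Primrec.const none)
    exact testU_primrec.comp Primrec.fst Primrec.snd
  have hTiff : ∀ s t x, T s t = some x ↔
      (s = List.replicate (lead s) true ++ false :: rest s ∧ testU s t = some x) := by
    intro s t x
    simp only [T]
    split_ifs with h
    · exact ⟨fun h' => ⟨h, h'⟩, fun h' => h'.2⟩
    · exact ⟨fun h' => by simp at h', fun h' => absurd h'.1 h⟩
  have hpre : ∀ k k' (p q : List Bool), List.replicate k true ++ false :: p <+: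
      List.replicate k' true ++ false :: q → k = k' ∧ p <+: q := by
    intro k
    induction k with
    | zero =>
      intro k' p q h
      cases k' with
      | zero => simpa using h
      | succ k' =>
        rw [List.replicate_succ] at h
        simp at h
    | succ k ih =>
      intro k' p q h
      cases k' with
      | zero =>
        rw [List.replicate_succ] at h
        simp at h
      | succ k' =>
        rw [List.replicate_succ, List.replicate_succ, List.cons_append, List.cons_append,
          List.cons_prefix_cons] at h
        obtain ⟨h1, h2⟩ := ih k' p q h.2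
        exact ⟨by omega, h2⟩
  refine ⟨fun s => Nat.rfindOpt (T s), Partrec.rfindOpt hT.to_comp, ?_, ?_⟩
  · intro s s' hs hs' hp
    obtain ⟨t, x, hx⟩ := Nat.rfindOpt_dom.1 hs
    obtain ⟨t', x', hx'⟩ := Nat.rfindOpt_dom.1 hs'
    obtain ⟨e1, h1⟩ := (hTiff _ _ _).1 hx
    obtain ⟨e2, h2⟩ := (hTiff _ _ _).1 hx'
    obtain ⟨a1, a2⟩ := testU_iff.1 h1
    obtain ⟨b1, b2⟩ := testU_iff.1 h2
    rw [e1, e2] at hp
    obtain ⟨hk, hpp⟩ := hpre _ _ _ _ hp
    rw [← hk] at b1 b2
    have htt : t = t' := by
      rcases lt_trichotomy t t' with h | h | h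
      · exact absurd (cmp_of_isPre hpp) (okU_iff.1 b2 t h _ _ a1)
      · exact h
      · exact absurd (cmp_symm (cmp_of_isPre hpp)) (okU_iff.1 a2 t' h _ _ b1)
    subst htt
    rw [a1] at b1
    simp only [Option.some.injEq, Prod.mk.injEq] at b1
    rw [e1, e2, hk, b1.1]
  · intro M hM hMpf
    obtain ⟨c, hc⟩ := exists_code_str hM
    obtain ⟨hc1, hc2⟩ := enumU_complete hc
    refine ⟨encode c + 1, fun p x hx => ⟨List.replicate (encode c) true ++ false :: p, ?_, ?_⟩⟩
    · obtain ⟨t, ht⟩ := hc2 p x hx
      have hok : okU (encode c, p) t = true := by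
        rw [okU_iff]
        intro s hs q y hq hcmp
        have hdq : (M q).Dom := Part.dom_iff_mem.2 ⟨y, hc1 s q y hq⟩
        have hdp : (M p).Dom := Part.dom_iff_mem.2 ⟨x, hx⟩
        have hqp : q = p := by
          rcases hcmp with h | h
          · exact hMpf q p hdq hdp (List.prefix_iff_eq_take.2 h.symm)
          · exact (hMpf p q hdp hdq (List.prefix_iff_eq_take.2 h.symm)).symm
        subst hqp
        have := enumU_stage_unique hq ht
        omega
      have hTt : T (List.replicate (encode c) true ++ false :: p) t = some x := by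
        rw [hTiff]
        refine ⟨by rw [lead_spec, rest_spec], testU_iff.2 ?_⟩
        rw [lead_spec, rest_spec]
        exact ⟨ht, hok⟩
      have hdom : (Nat.rfindOpt (T (List.replicate (encode c) true ++ false :: p))).Dom :=
        Nat.rfindOpt_dom.2 ⟨t, x, hTt⟩
      obtain ⟨t', ht'⟩ := Nat.rfindOpt_spec (Part.get_mem hdom)
      have ht'' := (hTiff _ _ _).1 ht'
      have h3 := (testU_iff.1 ht''.2).1
      rw [lead_spec, rest_spec] at h3
      have h4 := hc1 _ _ _ h3
      have h5 := Part.mem_unique h4 hx
      rw [← h5]
      exact Part.get_mem hdom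
    · simp; omega

end Pool.Agent.Lib_helper46.Measures
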