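import Mathlib
import Pool.Agent.Lib_helper46.Plain
import Pool.Agent.Lib_helper46.KDefs

set_option autoImplicit false

/-!
# (B2) implies (A2): the proof
-/

namespace Pool.Agent.Lib_helper46.Measures

open MeasureTheory

/-! ### Auxiliary facts -/

theorem bits_primrec : Primrec Nat.bits := by
  have h : Primrec₂ (fun (_ : Unit) (n : ℕ) => Nat.bits n) := by
    refine Primrec.nat_strong_rec (fun (_ : Unit) (n : ℕ) => Nat.bits n)
      (g := fun _ l => if l.length = 0 then some [] else
        (l[l.length / 2]?).map (fun b => Nat.bodd l.length :: b)) ?_ ?_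
    · have hl : Primrec (fun x : Unit × List (List Bool) => x.2.length) :=
        Primrec.list_length.comp Primrec.snd
      refine Primrec.ite (Primrec.eq.comp hl (Primrec.const 0)) (Primrec.const _) ?_
      refine Primrec.option_map (Primrec.list_getElem?.comp Primrec.snd
        (Primrec.nat_div.comp hl (Primrec.const 2))) ?_
      exact (Primrec.list_cons.comp (Primrec.nat_bodd.comp (hl.comp Primrec.fst))
        Primrec.snd).to₂
    · intro _ n
      simp only [List.length_map, List.length_range]
      by_cases h0 : n = 0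
      · simp [h0]
      · rw [if_neg h0]
        have h2 : n / 2 < n := by omega
        simp only [List.getElem?_map, List.getElem?_range h2, Option.map_some]
        have h3 : n.bits = Nat.bodd n :: (n / 2).bits := by
          have h5 : n / 2 = 0 → Nat.bodd n = true := by
            intro h6
            have : n = 1 := by omega
            subst this; rfl
          have h4 := Nat.bits_append_bit (n / 2) (Nat.bodd n) h5
          rw [← Nat.div2_val, Nat.bit_bodd_div2] at h4
          rw [← Nat.div2_val]
          exact h4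
        rw [h3]
  exact h.comp (Primrec.const ()) Primrec.id

theorem binCode_computable : Computable binCode :=
  (Primrec.list_reverse.comp bits_primrec).to_comp

theorem complexity_le {M : List Bool →. List Bool} {x p : List Bool} (h : x ∈ M p) :
    complexity M x ≤ p.length := Nat.sInf_le ⟨p, rfl, h⟩

theorem complexity_spec {M : List Bool →. List Bool} {x : List Bool} (h : ∃ p, x ∈ M p) :
    ∃ p, p.length = complexity M x ∧ x ∈ M p := by
  obtain ⟨p, hp⟩ := h
  exact Nat.sInf_mem (s := {k : ℕ | ∃ p : List Bool, p.length = k ∧ x ∈ M p}) ⟨p.length, p, rfl, hp⟩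

/-- The machine outputting its input. -/
theorem id_partrec : Partrec (fun p : List Bool => (Part.some p : Part (List Bool))) :=
  Computable.id.partrec

theorem plain_id {U : List Bool →. List Bool} (hU : IsUniversalPlain U) :
    ∃ c : ℕ, ∀ x : List Bool, complexity U x ≤ x.length + c := by
  obtain ⟨c, hc⟩ := hU.optimal _ id_partrec
  refine ⟨c, fun x => ?_⟩
  obtain ⟨q, hq, hq'⟩ := hc x x (Part.mem_some x)
  exact (complexity_le hq).trans hq'

/-- Every string is an output of a universal prefix-free machine. -/
theorem prefix_total {V : List Bool →. List Bool} (hV : IsUniversalPrefixFree V)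
    (x : List Bool) : ∃ p, x ∈ V p := by
  -- use the machine whose only program is the empty string, with output `x`
  have h1 : Partrec (fun p : List Bool => (if p = [] then some x else none : Option (List Bool)) :
      List Bool →. List Bool) := by
    refine Computable.ofOption ?_
    exact (Primrec.ite (Primrec.eq.comp Primrec.id (Primrec.const [])) (Primrec.const (some x))
      (Primrec.const none)).to_comp
  have h2 : HasPrefixFreeDomain (fun p : List Bool =>
      ((if p = [] then some x else none : Option (List Bool)) : Part (List Bool))) := by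
    intro p q hp hq _
    by_cases h : p = [] <;> by_cases h' : q = [] <;> simp_all
  obtain ⟨c, hc⟩ := hV.optimal _ h1 h2
  obtain ⟨q, hq, -⟩ := hc [] x (by simp)
  exact ⟨q, hq⟩

/-- The key combinatorial fact. -/
theorem key {U V : List Bool →. List Bool} (hU : IsUniversalPlain U)
    (hV : IsUniversalPrefixFree V) :
    ∃ C : ℕ, ∀ (n k : ℕ) (x z : List Bool), x.length = n →
      complexity V x + 2 * k ≤ n + complexity V (binCode n) →
      n + z.length = Nat.pair n (complexity V (binCode n)) →
      complexity U (x ++ z) + k ≤ Nat.pair n (complexity V (binCode n)) + C := by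
  obtain ⟨e, he, he1, he2, he3⟩ := Lib_helper46.exists_enum hV.partrec
  have hpf : ∀ s t p q x y, e s = some (p, x) → e t = some (q, y) → p <+: q → p = q := by
    intro s t p q x y hs ht hpq
    exact hV.prefixFree p q (Part.dom_iff_mem.2 ⟨x, he1 s p x hs⟩)
      (Part.dom_iff_mem.2 ⟨y, he1 t q y ht⟩) hpq
  obtain ⟨M, hM1, hM2, hM3⟩ :=
    Lib_helper46.coding binCode_computable he.to_comp hpf he3
  obtain ⟨c1, hc1⟩ := hV.optimal M hM1 hM2
  set d := c1 + 2 with hd
  have hK : ∀ n N k, (1 / 2 : ℝ) ^ k ≤ Lib_helper46.acc e n N →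
      complexity V (binCode n) ≤ k + d := by
    intro n N k h
    obtain ⟨σ, hσ, hσ'⟩ := hM3 n N k h
    obtain ⟨q, hq, hq'⟩ := hc1 σ _ hσ'
    have := complexity_le hq
    omega
  obtain ⟨c2, hc2⟩ := hU.optimal _ (Lib_helper46.plainM_partrec he.to_comp d)
  refine ⟨d + 2 + c2, ?_⟩
  intro n k x z hx hxk hz
  set v := complexity V (binCode n) with hv
  obtain ⟨p, hp, hpx⟩ := complexity_spec (prefix_total hV x)
  obtain ⟨t, ht⟩ := he2 p x hpx
  set b := n + v - 2 * k with hb
  have hpb : p.length ≤ b := by omega
  have hgood : Lib_helper46.good n b (p, x) := ⟨hx, hpb⟩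
  have hcnt := Lib_helper46.cnt_succ_of_good (x := (n, b)) ht hgood
  -- counting
  have hcount : ∀ r T, 2 ^ r ≤ Lib_helper46.cnt e (n, b) T → v + r ≤ b + d := by
    intro r T h
    have h1 := Lib_helper46.cnt_le_acc (e := e) n b T
    have h2 : ((2 : ℝ) ^ r) ≤ (Lib_helper46.cnt e (n, b) T : ℝ) := by exact_mod_cast h
    have h3 : (2 : ℝ) ^ r * (1 / 2 : ℝ) ^ b ≤ Lib_helper46.acc e n T := by
      refine le_trans ?_ h1
      gcongr
    rcases le_or_gt r b with hrb | hrb
    · have h4 : (2 : ℝ) ^ r * (1 / 2 : ℝ) ^ b = (1 / 2 : ℝ) ^ (b - r) := by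
        obtain ⟨j, hj⟩ := Nat.exists_eq_add_of_le hrb
        rw [hj, Nat.add_sub_cancel_left, pow_add, ← mul_assoc, ← mul_pow]
        norm_num
      rw [h4] at h3
      have := hK n T _ h3
      omega
    · exfalso
      have h4 := Lib_helper46.acc_le_one hpf he3 n T
      have h5 : (1 : ℝ) < (2 : ℝ) ^ r * (1 / 2 : ℝ) ^ b := by
        obtain ⟨j, hj⟩ := Nat.exists_eq_add_of_lt hrb
        have h6 : (2 : ℝ) ^ (b + j + 1) * (1 / 2 : ℝ) ^ b = 2 ^ (j + 1) := by
          rw [add_assoc, pow_add, mul_assoc, mul_comm ((2 : ℝ) ^ (j + 1)), ← mul_assoc, ← mul_pow]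
          norm_num
        rw [hj, h6]
        exact one_lt_pow₀ (by norm_num) (by omega)
      linarith
  have hk : 2 * k ≤ n + d := by
    have h1 := hcount 0 (t + 1) (by rw [hcnt]; simp)
    omega
  have hlt : Lib_helper46.cnt e (n, b) t < 2 ^ (n + (d + 1) - 2 * k) := by
    by_contra hcon
    push Not at hcon
    have h1 := hcount _ _ hcon
    omega
  obtain ⟨u, hu1, hu2⟩ := Lib_helper46.exists_val _ _ hlt
  have hsearch : Lib_helper46.search e ((n, b), Lib_helper46.cnt e (n, b) t) t = some x :=
    Lib_helper46.search_eq_some.2 ⟨p, ht, hx, hpb, rfl⟩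
  have hmem := Lib_helper46.plainM_spec (d := d) (v := v) (z := z) hsearch hb hk hu1 hu2 hz
  obtain ⟨q, hq, hq'⟩ := hc2 _ _ hmem
  have h1 := complexity_le hq
  simp only [List.length_append, List.length_replicate, List.length_cons] at hq'
  rw [hu1] at hq'
  omega

/-! ### Averages as integrals -/

/-- The first `n` bits of `ω`. -/
def pre (ω : ℕ → Bool) (n : ℕ) : List Bool := List.ofFn (fun i : Fin n => ω i)

theorem pre_length (ω : ℕ → Bool) (n : ℕ) : (pre ω n).length = n := by simp [pre]

theorem cylinder_measurable (x : List Bool) : MeasurableSet (cylinder x) := by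
  unfold cylinder
  rw [show {ω : ℕ → Bool | ∀ i : Fin x.length, ω i = x.get i}
    = ⋂ i : Fin x.length, {ω : ℕ → Bool | ω i = x.get i} by ext; simp]
  exact MeasurableSet.iInter fun i => measurableSet_eq_fun (measurable_pi_apply _) measurable_const

theorem mem_cylinder_iff {n : ℕ} (x : List.Vector Bool n) (ω : ℕ → Bool) :
    ω ∈ cylinder x.toList ↔ pre ω n = x.toList := by
  unfold cylinder pre
  simp only [Set.mem_ofPred_eq]
  constructor
  · intro h
    refine List.ext_get (by simp) ?_
    intro i h1 h2
    have := h ⟨i, h2⟩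
    simp at this ⊢
    exact this
  · intro h i
    have hi : (i : ℕ) < n := by have := i.2; simpa using this
    have h1 : (List.ofFn (fun i : Fin n => ω i))[(i : ℕ)]? = x.toList[(i : ℕ)]? := by rw [h]
    rw [List.getElem?_eq_getElem (by simpa using hi), List.getElem?_eq_getElem i.2] at h1
    simpa using h1

theorem integrable_pre (μ : Measure (ℕ → Bool)) [IsProbabilityMeasure μ] (F : List Bool → ℝ)
    (n : ℕ) : Integrable (fun ω => F (pre ω n)) μ ∧
      ∫ ω, F (pre ω n) ∂μ = ∑ x : List.Vector Bool n, μ.real (cylinder x.toList) * F x.toList := by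
  have h : (fun ω => F (pre ω n)) = fun ω => ∑ x : List.Vector Bool n,
      (cylinder x.toList).indicator (fun _ => F x.toList) ω := by
    funext ω
    let y : List.Vector Bool n := ⟨pre ω n, pre_length ω n⟩
    rw [Finset.sum_eq_single y]
    · rw [Set.indicator_of_mem ((mem_cylinder_iff y ω).2 rfl)]
      rfl
    · intro x _ hx
      rw [Set.indicator_of_notMem]
      intro hmem
      apply hx
      have := (mem_cylinder_iff x ω).1 hmem
      exact List.Vector.eq _ _ this.symm
    · intro h; exact absurd (Finset.mem_univ _) h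
  have hint : ∀ x : List.Vector Bool n,
      Integrable ((cylinder x.toList).indicator (fun _ => F x.toList)) μ := fun x =>
    (integrable_const _).indicator (cylinder_measurable _)
  constructor
  · rw [h]
    exact integrable_finsetSum _ fun x _ => hint x
  · rw [h, integral_finsetSum _ fun x _ => hint x]
    refine Finset.sum_congr rfl fun x _ => ?_
    rw [integral_indicator (cylinder_measurable _)]
    simp [Measure.real]

theorem average_eq (κ : List Bool → ℕ) (μ : Measure (ℕ → Bool)) [IsProbabilityMeasure μ]
    (n : ℕ) : average κ μ n = ∫ ω, (κ (pre ω n) : ℝ) ∂μ :=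
  ((integrable_pre μ (fun x => (κ x : ℝ)) n).2).symm

theorem pre_split (ω : ℕ → Bool) {n m : ℕ} (h : n ≤ m) :
    ∃ z : List Bool, n + z.length = m ∧ pre ω m = pre ω n ++ z := by
  refine ⟨List.ofFn (fun i : Fin (m - n) => ω (n + i)), by simp; omega, ?_⟩
  refine List.ext_getElem (by simp [pre]; omega) ?_
  intro i h1 h2
  simp only [pre, List.getElem_append, List.getElem_ofFn, List.length_ofFn]
  split_ifs with h3
  · rfl
  · congr 1
    omega

/-- (B2) implies (A2). -/
theorem b2_implies_a2 (U V : List Bool →. List Bool) (hU : IsUniversalPlain U)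
    (hV : IsUniversalPrefixFree V) (μ : Measure (ℕ → Bool)) [IsProbabilityMeasure μ]
    (h : B2 U μ) : A2 V μ := by
  obtain ⟨c, hc⟩ := h
  obtain ⟨C, hC⟩ := key hU hV
  obtain ⟨c0, hc0⟩ := plain_id hU
  set D : ℕ := max C c0 with hD
  refine ⟨2 * c + 2 * D + 1, fun n => ?_⟩
  set v := complexity V (binCode n) with hv
  set m := Nat.pair n v with hm
  have hnm : n ≤ m := Nat.left_le_pair n v
  have hpoint : ∀ ω : ℕ → Bool, 2 * (complexity U (pre ω m) : ℝ) ≤
      2 * m + 2 * D + 1 - n - v + (complexity V (pre ω n) : ℝ) := by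
    intro ω
    obtain ⟨z, hz, hs⟩ := pre_split ω hnm
    have h1 := hC n ((n + v - complexity V (pre ω n)) / 2) (pre ω n) z (pre_length ω n)
    have h0 : complexity U (pre ω m) ≤ m + c0 := by
      have := hc0 (pre ω m); rwa [pre_length] at this
    rw [hs] at h0 ⊢
    rw [← hv, ← hm] at h1
    rcases le_or_gt (complexity V (pre ω n)) (n + v) with hle | hgt
    · have h2 := h1 (by omega) hz
      have h3 : 2 * complexity U (pre ω n ++ z) + n + v
          ≤ 2 * m + 2 * D + 1 + complexity V (pre ω n) := by
        have : C ≤ D := le_max_left _ _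
        omega
      have h4 : 2 * (complexity U (pre ω n ++ z) : ℝ) + n + v
          ≤ 2 * m + 2 * D + 1 + complexity V (pre ω n) := by exact_mod_cast h3
      linarith
    · have h3 : 2 * complexity U (pre ω n ++ z) + n + v
          ≤ 2 * m + 2 * D + 1 + complexity V (pre ω n) := by
        have : c0 ≤ D := le_max_right _ _
        omega
      have h4 : 2 * (complexity U (pre ω n ++ z) : ℝ) + n + v
          ≤ 2 * m + 2 * D + 1 + complexity V (pre ω n) := by exact_mod_cast h3
      linarith
  have hI1 := (integrable_pre μ (fun x => 2 * (complexity U x : ℝ)) m).1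
  have hI2 := (integrable_pre μ (fun x => (complexity V x : ℝ)) n).1
  have hmono : ∫ ω, 2 * (complexity U (pre ω m) : ℝ) ∂μ ≤
      ∫ ω, (2 * m + 2 * D + 1 - n - v + (complexity V (pre ω n) : ℝ)) ∂μ :=
    integral_mono hI1 ((integrable_const _).add hI2) hpoint
  rw [integral_const_mul, integral_add (integrable_const _) hI2, ← average_eq, ← average_eq]
    at hmono
  simp only [integral_const, probReal_univ, smul_eq_mul, one_mul] at hmono
  have := hc m
  linarith

end Pool.Agent.Lib_helper46.Measures
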